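import Pool.Agent.H98.STB.Lip
import Pool.Agent.H98.STB.Gp

/-!
# Dimension two: vectors, polynomials, coordinates with respect to two directions

The dimension-two versions of the letters of `H98/STB/S`, `H6/STB/Alg`.
-/

set_option autoImplicit false

namespace Pool.CL2

open Finset Real MvPolynomial
open Pool.Agent.H49.Ent Pool.Agent.H32.Dense Pool.STK
open Pool.BFL (Pb)
open Pool.MIC

/-- Vectors of the plane. -/
abbrev V2 : Type := Fin 2 → ℝ

/-- Polynomials on the plane. -/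
abbrev P2 : Type := MvPolynomial (Fin 2) ℝ

/-- The box of size `r`. -/
def Bx (r : ℝ) (q : V2) : Prop := ∀ i, |q i| ≤ r

/-- The linear substitution of a matrix. -/
noncomputable def lin (B : Matrix (Fin 2) (Fin 2) ℝ) (j : Fin 2) : P2 :=
  ∑ l, C (B j l) * MvPolynomial.X l

/-- The matrix with the columns `X a`. -/
def mt (X : Fin 2 → V2) : Matrix (Fin 2) (Fin 2) ℝ := Matrix.of fun j a => X a j

/-- The cell of a vector in units `1 / M`. -/
noncomputable def cv (M : ℕ) (q : V2) : Fin 2 → ℤ := fun i => ⌊(M : ℝ) * q i⌋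

/-- The polynomial on the line `a + t v`. -/
noncomputable def ln (a v : V2) (Φ : P2) : Polynomial ℝ :=
  aeval (fun j => Polynomial.C (a j) + Polynomial.C (v j) * Polynomial.X) Φ

theorem ln_eval (a v : V2) (Φ : P2) (t : ℝ) :
    (ln a v Φ).eval t = eval (fun j => a j + t * v j) Φ := by
  unfold ln
  induction Φ using MvPolynomial.induction_on with
  | C c => simp
  | add p q hp hq => rw [map_add, Polynomial.eval_add, hp, hq, map_add]
  | mul_X p i hp =>
    rw [map_mul, Polynomial.eval_mul, hp, map_mul, aeval_X, eval_X, Polynomial.eval_add,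
      Polynomial.eval_mul, Polynomial.eval_C, Polynomial.eval_C, Polynomial.eval_X]
    ring

theorem ln_deg (a v : V2) {Φ : P2} {K : ℕ} (h : Φ.totalDegree ≤ K) : (ln a v Φ).natDegree ≤ K := by
  have h1 := aeval_natDegree_le (n := 1) Φ h
    (fun j => Polynomial.C (a j) + Polynomial.C (v j) * Polynomial.X) (fun j => by
      refine (Polynomial.natDegree_add_le _ _).trans (max_le ?_ ?_)
      · rw [Polynomial.natDegree_C]; exact Nat.zero_le _
      · exact (Polynomial.natDegree_C_mul_le _ _).trans Polynomial.natDegree_X_le)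
  rw [mul_one] at h1
  exact h1

theorem eval_lin (B : Matrix (Fin 2) (Fin 2) ℝ) (Ψ : P2) (q : V2) :
    eval q (bind₁ (lin B) Ψ) = eval (B.mulVec q) Ψ := by
  rw [← coe_aeval_eq_eval, ← coe_aeval_eq_eval, RingHom.coe_coe, RingHom.coe_coe, aeval_bind₁]
  congr 1
  congr 1
  funext j
  unfold lin
  simp [Matrix.mulVec, dotProduct]

/-- The coordinates in the basis `X`. -/
noncomputable def sol (X : Fin 2 → V2) (q : V2) : Fin 2 → ℝ := (mt X)⁻¹.mulVec q

theorem mt_mulVec (X : Fin 2 → V2) (s : Fin 2 → ℝ) : (mt X).mulVec s = ∑ a, s a • X a := by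
  funext j
  simp only [mt, Matrix.mulVec, dotProduct, Matrix.of_apply, Finset.sum_apply, Pi.smul_apply,
    smul_eq_mul]
  exact Finset.sum_congr rfl fun a _ => mul_comm _ _

theorem sol_spec (X : Fin 2 → V2) (h : (mt X).det ≠ 0) (q : V2) : ∑ a, sol X q a • X a = q := by
  rw [← mt_mulVec, sol, Matrix.mulVec_mulVec, Matrix.mul_nonsing_inv _ (isUnit_iff_ne_zero.2 h),
    Matrix.one_mulVec]

theorem sol_comb (X : Fin 2 → V2) (h : (mt X).det ≠ 0) (s : Fin 2 → ℝ) :
    sol X (∑ a, s a • X a) = s := by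
  rw [← mt_mulVec, sol, Matrix.mulVec_mulVec, Matrix.nonsing_inv_mul _ (isUnit_iff_ne_zero.2 h),
    Matrix.one_mulVec]

theorem sol_smul (X : Fin 2 → V2) (c : ℝ) (q : V2) : sol X (c • q) = c • sol X q := by
  unfold sol
  rw [Matrix.mulVec_smul]

theorem adj_le (X : Fin 2 → V2) (hX : ∀ a, Bx 1 (X a)) (i j : Fin 2) :
    |(mt X).adjugate i j| ≤ 2 := by
  have h : ∀ a j, |X a j| ≤ 2 := fun a j => (hX a j).trans (by norm_num)
  rw [Matrix.adjugate_fin_two]
  fin_cases i <;> fin_cases j <;> simp [mt, abs_neg] <;> exact h _ _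

theorem sol_le (X : Fin 2 → V2) {η : ℝ} (hη : 0 < η) (hX : ∀ a, Bx 1 (X a))
    (hd : η ≤ |(mt X).det|) {r : ℝ} {q : V2} (hq : Bx r q) (a : Fin 2) :
    |sol X q a| ≤ 6 * r / η := by
  have hd0 : 0 < |(mt X).det| := lt_of_lt_of_le hη hd
  have hr : 0 ≤ r := (abs_nonneg _).trans (hq 0)
  have h1 : sol X q a = (mt X).det⁻¹ * ∑ l, (mt X).adjugate a l * q l := by
    unfold sol
    rw [Matrix.inv_def, Ring.inverse_eq_inv', Matrix.smul_mulVec]
    simp only [Pi.smul_apply, smul_eq_mul, Matrix.mulVec, dotProduct]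
  have h2 : |∑ l, (mt X).adjugate a l * q l| ≤ 6 * r := by
    refine (Finset.abs_sum_le_sum_abs _ _).trans ?_
    refine (Finset.sum_le_card_nsmul _ _ (2 * r) fun l _ => ?_).trans ?_
    · rw [abs_mul]
      exact mul_le_mul (adj_le X hX a l) (hq l) (abs_nonneg _) (by norm_num)
    · rw [Finset.card_univ, Fintype.card_fin, nsmul_eq_mul]
      push_cast
      linarith
  rw [h1, abs_mul, abs_inv]
  calc |(mt X).det|⁻¹ * |∑ l, (mt X).adjugate a l * q l| ≤ η⁻¹ * (6 * r) :=
        mul_le_mul (inv_anti₀ hη hd) h2 (abs_nonneg _) (by positivity)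
    _ = 6 * r / η := by ring

theorem comb_le (X : Fin 2 → V2) (hX : ∀ a, Bx 1 (X a)) (S : Finset (Fin 2)) (s : Fin 2 → ℝ)
    {r : ℝ} (hs : ∀ a, |s a| ≤ r) : Bx (3 * r) (∑ a ∈ S, s a • X a) := by
  have hr : 0 ≤ r := (abs_nonneg _).trans (hs 0)
  intro j
  rw [Finset.sum_apply]
  refine (Finset.abs_sum_le_sum_abs _ _).trans ?_
  refine (Finset.sum_le_card_nsmul _ _ r fun a _ => ?_).trans ?_
  · rw [Pi.smul_apply, smul_eq_mul, abs_mul]
    calc |s a| * |X a j| ≤ r * 1 := mul_le_mul (hs a) (hX a j) (abs_nonneg _) hr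
      _ = r := mul_one r
  · rw [nsmul_eq_mul]
    have h1 : S.card ≤ 3 := (Finset.card_le_univ S).trans (by simp)
    have h2 : (S.card : ℝ) ≤ 3 := by exact_mod_cast h1
    exact mul_le_mul_of_nonneg_right h2 hr

theorem lin_hom (B : Matrix (Fin 2) (Fin 2) ℝ) (j : Fin 2) : (lin B j).IsHomogeneous 1 := by
  unfold lin
  exact IsHomogeneous.sum _ _ _ fun l _ => isHomogeneous_C_mul_X _ _

theorem Bx_mono {r r' : ℝ} (h : r ≤ r') {q : V2} (hq : Bx r q) : Bx r' q := fun i => (hq i).trans h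

end Pool.CL2
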