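import Pool.Agent.H95.CL2.Core2

/-!
# The closed polynomial

`clo : CloStmt`: a value which is few given the position and the closed record, and a polynomial of the
time along each line, is a closed polynomial of the position.
-/

set_option autoImplicit false

namespace Pool.CL2

open Finset Real MvPolynomial Filter
open Pool.Agent.H49.Ent Pool.Agent.H32.Dense Pool.STK
open Pool.BFL (Pb)
open Pool.K2S (cpn)
open Pool.STB (Pb_mono Pb_or)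

/-- Powers. -/
theorem ev_pow (C a b : ℝ) (h : a < b) : ∀ᶠ M : ℕ in atTop, C * (M : ℝ) ^ a ≤ (M : ℝ) ^ b := by
  have h1 : Tendsto (fun M : ℕ => ((M : ℝ)) ^ (b - a)) atTop atTop :=
    (tendsto_rpow_atTop (by linarith)).comp tendsto_natCast_atTop_atTop
  filter_upwards [h1.eventually (eventually_ge_atTop C), eventually_gt_atTop 0] with M h2 h3
  have h4 : (0 : ℝ) < M := by exact_mod_cast h3
  have h5 : (M : ℝ) ^ b = (M : ℝ) ^ (b - a) * (M : ℝ) ^ a := by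
    rw [← Real.rpow_add h4]
    congr 1
    ring
  rw [h5]
  exact mul_le_mul_of_nonneg_right h2 (Real.rpow_nonneg h4.le a)

/-- Logarithms. -/
theorem ev_log (C θ : ℝ) (h : 0 < θ) : ∀ᶠ M : ℕ in atTop, C ≤ θ * Real.log M := by
  have h1 : Tendsto (fun M : ℕ => Real.log (M : ℝ)) atTop atTop :=
    Real.tendsto_log_atTop.comp tendsto_natCast_atTop_atTop
  filter_upwards [h1.eventually (eventually_ge_atTop (C / θ))] with M h2
  rw [div_le_iff₀ h] at h2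
  linarith

/-- The entropy of the roundings is small. -/
theorem ell_le {M : ℕ} (hM : 1 < M) {θ e₀ γ₀ : ℝ} (hθ : 0 < θ) (he₀ : e₀ = θ / 6) (h0 : 0 < γ₀)
    (h1 : γ₀ ≤ θ / 9) (hθ1 : θ ≤ 1)
    (hlog : Real.log 2 + Real.log 114 + Real.log 3 ≤ θ / 6 * Real.log M) :
    ell ((M : ℝ) ^ e₀) ((M : ℝ) ^ (-γ₀)) (θ / 9) M ≤ θ * Real.log M := by
  have hM1 : (1 : ℝ) < M := by exact_mod_cast hM
  have hM0 : (0 : ℝ) < M := by linarith
  have hK : (1 : ℝ) ≤ (M : ℝ) ^ e₀ := Real.one_le_rpow hM1.le (by rw [he₀]; positivity)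
  have h3 : ((M : ℝ) ^ (-γ₀)) ^ 3 = (M : ℝ) ^ (-(3 * γ₀)) := by
    rw [← Real.rpow_natCast, ← Real.rpow_mul hM0.le]
    congr 1
    push_cast
    ring
  have hl3 := Real.log_nonneg (show (1 : ℝ) ≤ 3 by norm_num)
  have hl : 0 ≤ Real.log M := Real.log_nonneg hM1.le
  have h4 : Real.log (57 * ((M : ℝ) ^ e₀ + 1) / ((M : ℝ) ^ (-γ₀)) ^ 3) ≤
      Real.log 114 + θ / 2 * Real.log M := by
    have h5 : 57 * ((M : ℝ) ^ e₀ + 1) / ((M : ℝ) ^ (-γ₀)) ^ 3 ≤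
        114 * (M : ℝ) ^ (e₀ + 3 * γ₀) := by
      rw [h3, Real.rpow_neg hM0.le, div_inv_eq_mul, Real.rpow_add hM0]
      have : (0 : ℝ) < (M : ℝ) ^ (3 * γ₀) := Real.rpow_pos_of_pos hM0 _
      nlinarith
    have h6 : (0 : ℝ) < 57 * ((M : ℝ) ^ e₀ + 1) / ((M : ℝ) ^ (-γ₀)) ^ 3 := by positivity
    refine (Real.log_le_log h6 h5).trans ?_
    rw [Real.log_mul (by norm_num) (Real.rpow_pos_of_pos hM0 _).ne', Real.log_rpow hM0]
    have h7 : e₀ + 3 * γ₀ ≤ θ / 2 := by rw [he₀]; linarith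
    have h8 := mul_le_mul_of_nonneg_right h7 hl
    linarith
  have h5 : Real.log (2 * M + 1) ≤ Real.log 3 + Real.log M := by
    rw [← Real.log_mul (by norm_num) hM0.ne']
    exact Real.log_le_log (by positivity) (by linarith)
  have h6 : 3 * (θ / 9) * Real.log (2 * M + 1) ≤ θ / 3 * (Real.log 3 + Real.log M) := by
    have h7 := mul_le_mul_of_nonneg_left h5 (show 0 ≤ θ / 3 by positivity)
    linarith
  have h8 : θ / 3 * Real.log 3 ≤ Real.log 3 := by nlinarith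
  unfold ell
  linarith

/-- The probabilities of the steps. -/
theorem cc_le {N : ℕ} {ρ E b c : ℝ} (hE : (2 * E + Real.log 2) / Real.log (1 / ρ) ≤ b) :
    cc N ρ E c ≤ 2 * (N + 2) * c + (N + 1) ^ 2 * b := by
  unfold cc
  have := mul_le_mul_of_nonneg_left hE (show (0 : ℝ) ≤ (N + 1) ^ 2 by positivity)
  linarith

theorem clo : CloStmt := by
  intro N c' κ hc' hκ
  obtain ⟨Cr, Cl, C₁, hCr, hCl, hC₁, hcore⟩ := core N
  obtain ⟨C₂, hC₂, hlip⟩ := lip1 N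
  have hN0 : (0 : ℝ) ≤ N := Nat.cast_nonneg N
  have hCr0 : (0 : ℝ) < Cr := by exact_mod_cast hCr
  have hCr1 : (1 : ℝ) ≤ Cr := by exact_mod_cast hCr
  obtain ⟨k1, hk1⟩ : ∃ k1 : ℝ, k1 = min 1 κ := ⟨_, rfl⟩
  have hk1p : 0 < k1 := by rw [hk1]; exact lt_min one_pos hκ
  have hk11 : k1 ≤ 1 := by rw [hk1]; exact min_le_left _ _
  have hk1κ : k1 ≤ κ := by rw [hk1]; exact min_le_right _ _
  obtain ⟨γs, hγs⟩ : ∃ γs : ℝ, γs = k1 / (24 * (N + 1)) := ⟨_, rfl⟩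
  have hγsp : 0 < γs := by rw [hγs]; positivity
  have hγsN : (N : ℝ) * γs ≤ k1 / 24 := by
    rw [hγs, mul_div_assoc', div_le_div_iff₀ (by positivity) (by norm_num)]
    nlinarith
  have hγs1 : γs ≤ 1 / 24 := by
    rw [hγs, div_le_div_iff₀ (by positivity) (by norm_num)]
    nlinarith
  obtain ⟨γr, hγr⟩ : ∃ γr : ℝ, γr = 1 / (8 * Cr) := ⟨_, rfl⟩
  have hγrp : 0 < γr := by rw [hγr]; positivity
  have hγrC : (Cr : ℝ) * γr = 1 / 8 := by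
    rw [hγr]
    field_simp
  obtain ⟨T, hT⟩ : ∃ T : ℝ, T = TT N := ⟨_, rfl⟩
  have hT1 : 1 ≤ T := by
    rw [hT]
    unfold TT
    exact_mod_cast (by omega : 1 ≤ 2 * (N + 1) + 1)
  obtain ⟨S, hS⟩ : ∃ S : ℝ, S = 2 * (N + 2) := ⟨_, rfl⟩
  have hS0 : 0 ≤ S := by rw [hS]; positivity
  obtain ⟨B3, hB3⟩ : ∃ B3 : ℝ, B3 = 4 * S ^ 3 + (S ^ 2 + S + 1) * ((N + 1) ^ 2 *
    (17 * T ^ 3 / γs)) := ⟨_, rfl⟩
  obtain ⟨B4, hB4⟩ : ∃ B4 : ℝ, B4 = 49 * T ^ 3 / γr := ⟨_, rfl⟩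
  have hB3p : 0 ≤ B3 := by rw [hB3]; positivity
  have hB4p : 0 ≤ B4 := by rw [hB4]; positivity
  obtain ⟨θ, hθ⟩ : ∃ θ : ℝ, θ = min (min (1 / 64) (k1 / 8)) (c' / (4 + 7 * B3 + 3 * B4)) := ⟨_, rfl⟩
  have hθp : 0 < θ := by
    rw [hθ]
    refine lt_min (lt_min (by norm_num) (by positivity)) (by positivity)
  have hθ64 : θ ≤ 1 / 64 := by rw [hθ]; exact (min_le_left _ _).trans (min_le_left _ _)
  have hθκ : θ ≤ k1 / 8 := by rw [hθ]; exact (min_le_left _ _).trans (min_le_right _ _)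
  have hθc : (4 + 7 * B3 + 3 * B4) * θ ≤ c' := by
    have h1 : θ ≤ c' / (4 + 7 * B3 + 3 * B4) := by rw [hθ]; exact min_le_right _ _
    rw [le_div_iff₀ (by positivity)] at h1
    linarith
  refine ⟨1 / 8, θ / 9, by norm_num, by positivity, ?_⟩
  intro γ₀ h0 h1
  obtain ⟨AN, hAN⟩ : ∃ AN : ℝ, AN = (N + 1) * 8 ^ N := ⟨_, rfl⟩
  have hAN1 : 1 ≤ AN := by
    rw [hAN]
    have h3 : (1 : ℝ) ≤ 8 ^ N := one_le_pow₀ (by norm_num)
    have h4 := mul_nonneg hN0 (by linarith : (0 : ℝ) ≤ 8 ^ N)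
    linarith
  obtain ⟨Cd, hCd⟩ : ∃ Cd : ℝ, Cd = 27 * AN ^ 3 * (1 + 12 * C₂) + 6 * Cl * AN ^ 3 +
    (1 + 12 * C₁) := ⟨_, rfl⟩
  have hCdp : 0 ≤ Cd := by rw [hCd]; positivity
  obtain ⟨Ce, hCe⟩ : ∃ Ce : ℝ, Ce = Cr * (2 * Cd + 4 * Cl * AN ^ 3) := ⟨_, rfl⟩
  have hCep : 0 ≤ Ce := by rw [hCe]; positivity
  have hev : ∀ᶠ M : ℕ in atTop, (1 < M ∧
      Real.log 2 + Real.log 114 + Real.log 3 ≤ θ / 6 * Real.log M) ∧
      ((12 * (M : ℝ) ^ (2 * θ - 1) ≤ (M : ℝ) ^ (0 : ℝ) ∧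
      (Cr : ℝ) * (M : ℝ) ^ (0 : ℝ) ≤ (M : ℝ) ^ (7 / 8 : ℝ)) ∧
      (2 * AN ^ 3 * (M : ℝ) ^ (k1 / 8 + θ) ≤ (M : ℝ) ^ κ ∧
      (Cd + 3 * Ce) * (M : ℝ) ^ (-(5 / 8) : ℝ) ≤ (M : ℝ) ^ (-(1 / 8) : ℝ))) :=
    ((eventually_gt_atTop 1).and (ev_log _ _ (by positivity))).and
      (((ev_pow _ _ _ (by linarith)).and (ev_pow _ _ _ (by norm_num))).and
        ((ev_pow _ _ _ (by linarith)).and (ev_pow _ _ _ (by norm_num))))
  obtain ⟨M₀, hM₀⟩ := eventually_atTop.1 hev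
  refine ⟨θ / 6, θ / 9, M₀, by positivity, by positivity, ?_⟩
  intro M hMM Ω Λ Z Y 𝒟 _ p L z y t D X x V P hC
  obtain ⟨⟨hM1', hlogM⟩, ⟨hp1, hp2⟩, hp3, hp4⟩ := hM₀ M hMM
  have hM : 1 ≤ M := hM1'.le
  have hM1 : (1 : ℝ) < M := by exact_mod_cast hM1'
  have hM0 : (0 : ℝ) < M := by linarith
  have hl : 0 < Real.log M := Real.log_pos hM1
  have hl2 := Real.log_nonneg (show (1 : ℝ) ≤ 2 by norm_num)
  have hl3 := Real.log_nonneg (show (1 : ℝ) ≤ 3 by norm_num)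
  have hl114 := Real.log_nonneg (show (1 : ℝ) ≤ 114 by norm_num)
  -- the parameters
  obtain ⟨K, hK⟩ : ∃ K : ℝ, K = (M : ℝ) ^ (θ / 6) := ⟨_, rfl⟩
  obtain ⟨η, hη⟩ : ∃ η : ℝ, η = (M : ℝ) ^ (-γ₀) := ⟨_, rfl⟩
  obtain ⟨e, he⟩ : ∃ e : ℝ, e = θ / 6 * Real.log M := ⟨_, rfl⟩
  obtain ⟨ρn, hρn⟩ : ∃ ρn : ℝ, ρn = (M : ℝ) ^ (-γs) := ⟨_, rfl⟩
  obtain ⟨ρ, hρ⟩ : ∃ ρ : ℝ, ρ = (M : ℝ) ^ (-γr) := ⟨_, rfl⟩
  have hlt : ∀ a : ℝ, 0 < a → (M : ℝ) ^ (-a) < 1 := fun a ha =>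
    Real.rpow_lt_one_of_one_lt_of_neg hM1 (by linarith)
  have hpp : ∀ a : ℝ, 0 < (M : ℝ) ^ a := fun a => Real.rpow_pos_of_pos hM0 a
  have hK1 : 1 ≤ K := by rw [hK]; exact Real.one_le_rpow hM1.le (by positivity)
  have hKθ : K ≤ (M : ℝ) ^ θ := by
    rw [hK]
    exact Real.rpow_le_rpow_of_exponent_le hM1.le (by linarith)
  have hηp : 0 < η := by rw [hη]; exact hpp _
  have hη1 : η ≤ 1 := by rw [hη]; exact (hlt γ₀ h0).le
  have hη3 : 1 / η ^ 3 ≤ (M : ℝ) ^ θ := by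
    have h3 : η ^ 3 = (M : ℝ) ^ (-(3 * γ₀)) := by
      rw [hη, ← Real.rpow_natCast, ← Real.rpow_mul hM0.le]
      congr 1
      push_cast
      ring
    rw [h3, Real.rpow_neg hM0.le, one_div, inv_inv]
    exact Real.rpow_le_rpow_of_exponent_le hM1.le (by linarith)
  have hep : 0 ≤ e := by rw [he]; positivity
  have hρnp : 0 < ρn := by rw [hρn]; exact hpp _
  have hρn1 : ρn < 1 := by rw [hρn]; exact hlt γs hγsp
  have hρp : 0 < ρ := by rw [hρ]; exact hpp _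
  have hρ1 : ρ < 1 := by rw [hρ]; exact hlt γr hγrp
  have hlogρn : Real.log (1 / ρn) = γs * Real.log M := by
    rw [hρn, one_div, Real.log_inv, Real.log_rpow hM0]
    ring
  have hlogρ : Real.log (1 / ρ) = γr * Real.log M := by
    rw [hρ, one_div, Real.log_inv, Real.log_rpow hM0]
    ring
  have hρnM : 1 ≤ ρn * M := by
    rw [hρn]
    have h3 : (M : ℝ) ^ (-γs) * M = (M : ℝ) ^ (1 - γs) := by
      conv_lhs => rw [show (M : ℝ) ^ (-γs) * (M : ℝ) = (M : ℝ) ^ (-γs) * (M : ℝ) ^ (1 : ℝ) by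
        rw [Real.rpow_one]]
      rw [← Real.rpow_add hM0]
      congr 1
      ring
    rw [h3]
    exact Real.one_le_rpow hM1.le (by linarith)
  have hone : ∀ a : ℝ, (M : ℝ) ^ a / M = (M : ℝ) ^ (a - 1) := fun a => by
    rw [Real.rpow_sub hM0, Real.rpow_one]
  -- 6 / η ^ 3 * (1 / M + K / M)
  have hw : 6 / η ^ 3 * (1 / M + K / M) ≤ 12 * (M : ℝ) ^ (2 * θ - 1) := by
    have h3 : 1 / (M : ℝ) + K / M ≤ 2 * (M : ℝ) ^ (θ - 1) := by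
      rw [← hone]
      have h4 : 1 / (M : ℝ) ≤ (M : ℝ) ^ θ / M := div_le_div_of_nonneg_right (hK1.trans hKθ) hM0.le
      have h5 : K / (M : ℝ) ≤ (M : ℝ) ^ θ / M := div_le_div_of_nonneg_right hKθ hM0.le
      linarith
    have h4 : 6 / η ^ 3 ≤ 6 * (M : ℝ) ^ θ := by
      rw [show 6 / η ^ 3 = 6 * (1 / η ^ 3) by ring]
      linarith
    calc 6 / η ^ 3 * (1 / M + K / M) ≤ 6 * (M : ℝ) ^ θ * (2 * (M : ℝ) ^ (θ - 1)) :=
          mul_le_mul h4 h3 (by positivity) (by positivity)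
      _ = 12 * ((M : ℝ) ^ θ * (M : ℝ) ^ (θ - 1)) := by ring
      _ = 12 * (M : ℝ) ^ (2 * θ - 1) := by
        rw [← Real.rpow_add hM0]
        congr 2
        ring
  rw [Real.rpow_zero] at hp1 hp2
  have hsm : 6 / η ^ 3 * (1 / M + K / M) ≤ 1 := hw.trans hp1
  have hKM : 3 * K / M ≤ 1 := by
    have h3 : 3 * K / M ≤ 3 * (M : ℝ) ^ (θ - 1) := by
      rw [← hone, ← mul_div_assoc]
      exact div_le_div_of_nonneg_right (by linarith) hM0.le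
    have h4 : (M : ℝ) ^ (θ - 1) ≤ (M : ℝ) ^ (2 * θ - 1) :=
      Real.rpow_le_rpow_of_exponent_le hM1.le (by linarith)
    have h5 := hpp (2 * θ - 1)
    linarith
  have hCM : (Cr : ℝ) ≤ ρ ^ Cr * (2 * M + 1) := by
    have h3 : ρ ^ Cr = (M : ℝ) ^ (-(1 / 8) : ℝ) := by
      rw [hρ, ← Real.rpow_natCast, ← Real.rpow_mul hM0.le]
      congr 1
      rw [show -γr * (Cr : ℝ) = -((Cr : ℝ) * γr) by ring, hγrC]
    rw [h3]
    have h4 : (M : ℝ) ^ (7 / 8 : ℝ) = (M : ℝ) ^ (-(1 / 8) : ℝ) * M := by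
      conv_rhs => rw [show (M : ℝ) ^ (-(1 / 8) : ℝ) * (M : ℝ) = (M : ℝ) ^ (-(1 / 8) : ℝ) *
        (M : ℝ) ^ (1 : ℝ) by rw [Real.rpow_one]]
      rw [← Real.rpow_add hM0]
      congr 1
      norm_num
    have h5 := hpp (-(1 / 8) : ℝ)
    have h6 : (M : ℝ) ^ (-(1 / 8) : ℝ) * M ≤ (M : ℝ) ^ (-(1 / 8) : ℝ) * (2 * M + 1) :=
      mul_le_mul_of_nonneg_left (by linarith) h5.le
    linarith
  -- the entropies
  have hell := ell_le hM1' hθp rfl h0 h1 (by linarith) hlogM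
  rw [← hK, ← hη] at hell
  have hell0 := ell_nonneg (M := M) (c := θ / 9) hM hηp hη1 hK1 (by positivity)
  have hE0 : 4 * (e + ell K η (θ / 9) M) ≤ 8 * θ * Real.log M := by
    rw [he]
    have h3 := mul_pos hθp hl
    linarith
  have hE0p : 0 ≤ 4 * (e + ell K η (θ / 9) M) := by positivity
  have hTE : ∀ E : ℝ, E ≤ 8 * θ * Real.log M * T ^ 3 →
      (2 * E + Real.log 2) / Real.log (1 / ρn) ≤ 17 * T ^ 3 / γs * θ := by
    intro E hE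
    rw [hlogρn, div_le_iff₀ (by positivity)]
    have h3 : 17 * T ^ 3 / γs * θ * (γs * Real.log M) = 17 * T ^ 3 * θ * Real.log M := by
      field_simp
    rw [h3]
    have h4 : Real.log 2 ≤ θ * Real.log M := by linarith [mul_pos hθp hl]
    have h5 : θ * Real.log M ≤ T ^ 3 * (θ * Real.log M) :=
      le_mul_of_one_le_left (by positivity) (one_le_pow₀ hT1)
    linarith
  have hT2 : T ≤ T ^ 3 := le_self_pow₀ hT1 (by norm_num)
  have hT3 : T ^ 2 ≤ T ^ 3 := pow_le_pow_right₀ hT1 (by norm_num)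
  have hT0 : (1 : ℝ) ≤ T ^ 3 := one_le_pow₀ hT1
  have ht0 : 0 ≤ 8 * θ * Real.log M := by positivity
  have b0 := hTE (4 * (e + ell K η (θ / 9) M)) (hE0.trans (le_mul_of_one_le_right ht0 hT0))
  have b1 := hTE (TT N * (4 * (e + ell K η (θ / 9) M))) (by
    rw [← hT]
    calc T * (4 * (e + ell K η (θ / 9) M)) ≤ T * (8 * θ * Real.log M) :=
          mul_le_mul_of_nonneg_left hE0 (by linarith)
      _ ≤ 8 * θ * Real.log M * T ^ 3 := by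
        rw [mul_comm]
        exact mul_le_mul_of_nonneg_left hT2 ht0)
  have b2 := hTE (TT N * (TT N * (4 * (e + ell K η (θ / 9) M)))) (by
    rw [← hT]
    calc T * (T * (4 * (e + ell K η (θ / 9) M))) = T ^ 2 * (4 * (e + ell K η (θ / 9) M)) := by ring
      _ ≤ T ^ 2 * (8 * θ * Real.log M) := mul_le_mul_of_nonneg_left hE0 (by positivity)
      _ ≤ 8 * θ * Real.log M * T ^ 3 := by
        rw [mul_comm]
        exact mul_le_mul_of_nonneg_left hT3 ht0)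
  have hE3 : TT N * (TT N * (TT N * (4 * (e + ell K η (θ / 9) M)))) ≤
      8 * θ * Real.log M * T ^ 3 := by
    rw [← hT]
    calc T * (T * (T * (4 * (e + ell K η (θ / 9) M)))) =
        T ^ 3 * (4 * (e + ell K η (θ / 9) M)) := by ring
      _ ≤ T ^ 3 * (8 * θ * Real.log M) := mul_le_mul_of_nonneg_left hE0 (by positivity)
      _ = 8 * θ * Real.log M * T ^ 3 := by ring
  -- the probabilities of the steps
  obtain ⟨c3, hc3⟩ : ∃ c3 : ℝ, c3 = cc N ρn (TT N * (TT N * (4 * (e + ell K η (θ / 9) M))))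
    (cc N ρn (TT N * (4 * (e + ell K η (θ / 9) M)))
        (cc N ρn (4 * (e + ell K η (θ / 9) M)) (4 * (θ / 9)))) := ⟨_, rfl⟩
  have hc3B : c3 ≤ B3 * θ := by
    obtain ⟨β, hβ⟩ : ∃ β : ℝ, β = 17 * T ^ 3 / γs * θ := ⟨_, rfl⟩
    rw [← hβ] at b0 b1 b2
    have a1 := cc_le (N := N) (c := 4 * (θ / 9)) b0
    have a2 := cc_le (N := N) (c := cc N ρn (4 * (e + ell K η (θ / 9) M)) (4 * (θ / 9))) b1
    have a3 := cc_le (N := N) (c := cc N ρn (TT N * (4 * (e + ell K η (θ / 9) M)))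
        (cc N ρn (4 * (e + ell K η (θ / 9) M)) (4 * (θ / 9)))) b2
    rw [← hc3, ← hS] at a3
    rw [← hS] at a1 a2
    have a4 := mul_le_mul_of_nonneg_left a1 hS0
    have a5 := mul_le_mul_of_nonneg_left (a2.trans (add_le_add_left a4 _)) hS0
    refine (a3.trans (add_le_add_left a5 _)).trans ?_
    rw [hB3]
    have a6 : S * (S * (S * (4 * (θ / 9)) + ((N : ℝ) + 1) ^ 2 * β) + ((N : ℝ) + 1) ^ 2 * β) +
        ((N : ℝ) + 1) ^ 2 * β = 4 / 9 * S ^ 3 * θ + (S ^ 2 + S + 1) * (((N : ℝ) + 1) ^ 2 * β) := by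
      ring
    have a7 : (4 * S ^ 3 + (S ^ 2 + S + 1) * (((N : ℝ) + 1) ^ 2 * (17 * T ^ 3 / γs))) * θ =
        4 * S ^ 3 * θ + (S ^ 2 + S + 1) * (((N : ℝ) + 1) ^ 2 * β) := by
      rw [hβ]
      ring
    rw [a6, a7]
    have a8 : 4 / 9 * S ^ 3 * θ ≤ 4 * S ^ 3 * θ := by
      have : 0 ≤ S ^ 3 * θ := by positivity
      linarith
    linarith
  -- the sizes
  have hLg : Lg N ρn = AN * (M : ℝ) ^ ((N : ℝ) * γs) := by
    unfold Lg
    rw [hAN, hρn, Real.rpow_neg hM0.le, div_inv_eq_mul, mul_pow, ← Real.rpow_natCast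
      ((M : ℝ) ^ γs) N, ← Real.rpow_mul hM0.le, mul_comm γs]
    ring
  have hLgb : Lg N ρn ≤ AN * (M : ℝ) ^ (k1 / 24) := by
    rw [hLg]
    exact mul_le_mul_of_nonneg_left (Real.rpow_le_rpow_of_exponent_le hM1.le hγsN) (by linarith)
  have hLg0 : 0 ≤ Lg N ρn := by unfold Lg; positivity
  have hLg3 : Lg N ρn ^ 3 ≤ AN ^ 3 * (M : ℝ) ^ (k1 / 8) := by
    calc Lg N ρn ^ 3 ≤ (AN * (M : ℝ) ^ (k1 / 24)) ^ 3 := pow_le_pow_left₀ hLg0 hLgb 3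
      _ = AN ^ 3 * ((M : ℝ) ^ (k1 / 24)) ^ 3 := mul_pow _ _ _
      _ = AN ^ 3 * (M : ℝ) ^ (k1 / 8) := by
        rw [← Real.rpow_natCast ((M : ℝ) ^ (k1 / 24)) 3, ← Real.rpow_mul hM0.le]
        congr 2
        push_cast
        ring
  obtain ⟨U, hU⟩ : ∃ U : ℝ, U = Lg N ρn * (Lg N ρn * (Lg N ρn * (K + 1))) := ⟨_, rfl⟩
  have hU0 : 0 ≤ U := by rw [hU]; positivity
  have hUb : U ≤ 2 * AN ^ 3 * (M : ℝ) ^ (k1 / 8 + θ) := by
    have h3 : U = Lg N ρn ^ 3 * (K + 1) := by rw [hU]; ring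
    rw [h3, Real.rpow_add hM0]
    calc Lg N ρn ^ 3 * (K + 1) ≤ AN ^ 3 * (M : ℝ) ^ (k1 / 8) * (2 * (M : ℝ) ^ θ) :=
          mul_le_mul hLg3 (by linarith) (by linarith) (by positivity)
      _ = 2 * AN ^ 3 * ((M : ℝ) ^ (k1 / 8) * (M : ℝ) ^ θ) := by ring
  -- the errors
  have hdl : ∀ C : ℝ, 1 ≤ C → dl C K η M ≤ (1 + 12 * C) * (M : ℝ) ^ (3 * θ - 1) := by
    intro C hC'
    unfold dl
    have h3 : K / M ≤ (M : ℝ) ^ (3 * θ - 1) := by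
      rw [← hone]
      refine div_le_div_of_nonneg_right (hKθ.trans ?_) hM0.le
      exact Real.rpow_le_rpow_of_exponent_le hM1.le (by linarith)
    have h4 : C * K * (6 / η ^ 3 * (1 / M + K / M)) ≤ C * (M : ℝ) ^ θ *
        (12 * (M : ℝ) ^ (2 * θ - 1)) :=
      mul_le_mul (mul_le_mul_of_nonneg_left hKθ (by linarith)) hw (by positivity) (by positivity)
    have h5 : C * (M : ℝ) ^ θ * (12 * (M : ℝ) ^ (2 * θ - 1)) =
        12 * C * (M : ℝ) ^ (3 * θ - 1) := by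
      rw [show C * (M : ℝ) ^ θ * (12 * (M : ℝ) ^ (2 * θ - 1)) =
        12 * C * ((M : ℝ) ^ θ * (M : ℝ) ^ (2 * θ - 1)) by ring, ← Real.rpow_add hM0]
      congr 2
      ring
    linarith
  have hexp : (M : ℝ) ^ (3 * θ - 1) ≤ (M : ℝ) ^ (-(3 / 4) : ℝ) :=
    Real.rpow_le_rpow_of_exponent_le hM1.le (by linarith)
  have hexp2 : (M : ℝ) ^ (k1 / 8) * (M : ℝ) ^ (3 * θ - 1) ≤ (M : ℝ) ^ (-(3 / 4) : ℝ) := by
    rw [← Real.rpow_add hM0]
    exact Real.rpow_le_rpow_of_exponent_le hM1.le (by linarith)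
  obtain ⟨δ, hδ⟩ : ∃ δ : ℝ, δ = 3 * Lg N ρn * (3 * Lg N ρn * (3 * Lg N ρn * dl C₂ K η M)) :=
    ⟨_, rfl⟩
  have hdl0 : ∀ C : ℝ, 1 ≤ C → 0 ≤ dl C K η M := fun C hC' => by unfold dl; positivity
  have hδb : δ ≤ 27 * AN ^ 3 * (1 + 12 * C₂) * (M : ℝ) ^ (-(3 / 4) : ℝ) := by
    have h3 : δ = 27 * (Lg N ρn ^ 3 * dl C₂ K η M) := by rw [hδ]; ring
    have h4 : Lg N ρn ^ 3 * dl C₂ K η M ≤ AN ^ 3 * (M : ℝ) ^ (k1 / 8) *
        ((1 + 12 * C₂) * (M : ℝ) ^ (3 * θ - 1)) :=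
      mul_le_mul hLg3 (hdl C₂ hC₂) (hdl0 C₂ hC₂) (by positivity)
    have h5 : AN ^ 3 * (M : ℝ) ^ (k1 / 8) * ((1 + 12 * C₂) * (M : ℝ) ^ (3 * θ - 1)) =
        AN ^ 3 * (1 + 12 * C₂) * ((M : ℝ) ^ (k1 / 8) * (M : ℝ) ^ (3 * θ - 1)) := by ring
    have h6 := mul_le_mul_of_nonneg_left hexp2 (show 0 ≤ AN ^ 3 * (1 + 12 * C₂) by positivity)
    rw [h3]
    linarith
  have hUK : Cl * U * (3 * K / M) ≤ 6 * Cl * AN ^ 3 * (M : ℝ) ^ (-(3 / 4) : ℝ) := by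
    have h3 : 3 * K / M ≤ 3 * (M : ℝ) ^ (θ - 1) := by
      rw [← hone, ← mul_div_assoc]
      exact div_le_div_of_nonneg_right (by linarith) hM0.le
    have h4 : Cl * U * (3 * K / M) ≤ Cl * (2 * AN ^ 3 * (M : ℝ) ^ (k1 / 8 + θ)) *
        (3 * (M : ℝ) ^ (θ - 1)) :=
      mul_le_mul (mul_le_mul_of_nonneg_left hUb (by linarith)) h3 (by positivity) (by positivity)
    have h5 : Cl * (2 * AN ^ 3 * (M : ℝ) ^ (k1 / 8 + θ)) * (3 * (M : ℝ) ^ (θ - 1)) =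
        6 * Cl * AN ^ 3 * ((M : ℝ) ^ (k1 / 8 + θ) * (M : ℝ) ^ (θ - 1)) := by ring
    have h6 : (M : ℝ) ^ (k1 / 8 + θ) * (M : ℝ) ^ (θ - 1) ≤ (M : ℝ) ^ (-(3 / 4) : ℝ) := by
      rw [← Real.rpow_add hM0]
      exact Real.rpow_le_rpow_of_exponent_le hM1.le (by linarith)
    have h7 := mul_le_mul_of_nonneg_left h6 (show 0 ≤ 6 * Cl * AN ^ 3 by positivity)
    linarith
  have hUM : Cl * U * (1 / M) ≤ 2 * Cl * AN ^ 3 * (M : ℝ) ^ (-(3 / 4) : ℝ) := by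
    have h3 : 1 / (M : ℝ) = (M : ℝ) ^ (-1 : ℝ) := by rw [Real.rpow_neg_one, one_div]
    have h4 : Cl * U * (1 / M) ≤ Cl * (2 * AN ^ 3 * (M : ℝ) ^ (k1 / 8 + θ)) *
        (M : ℝ) ^ (-1 : ℝ) := by
      rw [h3]
      exact mul_le_mul_of_nonneg_right (mul_le_mul_of_nonneg_left hUb (by linarith)) (hpp _).le
    have h5 : Cl * (2 * AN ^ 3 * (M : ℝ) ^ (k1 / 8 + θ)) * (M : ℝ) ^ (-1 : ℝ) =
        2 * Cl * AN ^ 3 * ((M : ℝ) ^ (k1 / 8 + θ) * (M : ℝ) ^ (-1 : ℝ)) := by ring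
    have h6 : (M : ℝ) ^ (k1 / 8 + θ) * (M : ℝ) ^ (-1 : ℝ) ≤ (M : ℝ) ^ (-(3 / 4) : ℝ) := by
      rw [← Real.rpow_add hM0]
      exact Real.rpow_le_rpow_of_exponent_le hM1.le (by linarith)
    have h7 := mul_le_mul_of_nonneg_left h6 (show 0 ≤ 2 * Cl * AN ^ 3 by positivity)
    linarith
  obtain ⟨v, hv⟩ : ∃ v : ℝ, v = dv Cl U K δ C₁ η M := ⟨_, rfl⟩
  have hvb : v ≤ Cd * (M : ℝ) ^ (-(3 / 4) : ℝ) := by
    rw [hv]
    unfold dv
    have h3 := hdl C₁ hC₁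
    have h4 := mul_le_mul_of_nonneg_left hexp (show 0 ≤ 1 + 12 * C₁ by linarith)
    rw [hCd]
    linarith
  have h34 : (M : ℝ) ^ (-(3 / 4) : ℝ) ≤ (M : ℝ) ^ (-(5 / 8) : ℝ) :=
    Real.rpow_le_rpow_of_exponent_le hM1.le (by norm_num)
  obtain ⟨dc, hdc⟩ : ∃ dc : ℝ, dc = Cr * (1 / ρ) ^ Cr * (2 * v + 2 * (Cl * U * (1 / M))) := ⟨_, rfl⟩
  have hdcb : dc ≤ Ce * (M : ℝ) ^ (-(5 / 8) : ℝ) := by
    have h3 : (1 / ρ) ^ Cr = (M : ℝ) ^ (1 / 8 : ℝ) := by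
      rw [hρ, Real.rpow_neg hM0.le, one_div, inv_inv, ← Real.rpow_natCast, ← Real.rpow_mul hM0.le]
      congr 1
      rw [mul_comm, hγrC]
    rw [hdc, h3]
    have h4 : 2 * v + 2 * (Cl * U * (1 / M)) ≤ (2 * Cd + 4 * Cl * AN ^ 3) *
        (M : ℝ) ^ (-(3 / 4) : ℝ) := by linarith
    have h5 := mul_le_mul_of_nonneg_left h4 (show 0 ≤ (Cr : ℝ) * (M : ℝ) ^ (1 / 8 : ℝ) by positivity)
    refine h5.trans (le_of_eq ?_)
    rw [hCe, show (Cr : ℝ) * (M : ℝ) ^ (1 / 8 : ℝ) * ((2 * Cd + 4 * Cl * AN ^ 3) *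
      (M : ℝ) ^ (-(3 / 4) : ℝ)) = Cr * (2 * Cd + 4 * Cl * AN ^ 3) *
        ((M : ℝ) ^ (1 / 8 : ℝ) * (M : ℝ) ^ (-(3 / 4) : ℝ)) by ring, ← Real.rpow_add hM0]
    congr 2
    norm_num
  have hv0 : 0 ≤ v := by
    rw [hv]
    unfold dv
    have h3 := hdl0 C₁ hC₁
    have h4 := hdl0 C₂ hC₂
    have h5 : 0 ≤ δ := by rw [hδ]; positivity
    positivity
  -- the conclusion
  obtain ⟨f, hf1, hf2, hf3⟩ := hcore Ω Λ Z Y 𝒟 p L z y t D X x V P M K e η (θ / 9)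
    (TT N * (TT N * (TT N * (4 * (e + ell K η (θ / 9) M))))) δ c3 U ρ
    (by rw [hK, he, hη]; exact hC) hM hηp hη1 hK1 (by positivity) hep hU0 hsm hKM hρp hρ1 hCM
    (fun x0 hx0 => by
      have h3 := lvl3 (x0 := x0) (K := K) (e := e) (η := η) (c := θ / 9) (P := P) (V := V)
        (by rw [hK, he, hη]; exact hC) hM hx0 hηp hη1 hlip (by linarith) hK1 hsm
        (by positivity) hep hρnp hρn1 hρnM
      rw [← hc3, ← hδ, ← hU] at h3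
      exact h3)
  have hfin : (8 * e + 8 * ell K η (θ / 9) M + 4 * (TT N * (TT N * (TT N *
      (4 * (e + ell K η (θ / 9) M))))) + Real.log 2) / Real.log (1 / ρ) ≤ B4 * θ := by
    rw [hlogρ, div_le_iff₀ (by positivity), hB4]
    have h3 : 49 * T ^ 3 / γr * θ * (γr * Real.log M) = 49 * T ^ 3 * (θ * Real.log M) := by
      field_simp
    rw [h3]
    have h4 : Real.log 2 ≤ θ * Real.log M := by linarith [mul_pos hθp hl]
    have h5 : θ * Real.log M ≤ T ^ 3 * (θ * Real.log M) :=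
      le_mul_of_one_le_left (by positivity) hT0
    have h6 : 8 * e + 8 * ell K η (θ / 9) M ≤ 16 * θ * Real.log M := by linarith
    linarith
  rw [← hv, ← hdc] at hf2 hf3
  refine ⟨f, fun r => ⟨(hf1 r).1, fun q hq => ?_⟩, ?_, ?_⟩
  · refine ((hf1 r).2 q fun i => (hq i).trans (by norm_num)).trans ?_
    exact hUb.trans hp3
  · have h3 : v + dc ≤ (M : ℝ) ^ (-(1 / 8) : ℝ) := by
      have h5 := mul_le_mul_of_nonneg_left h34 hCdp
      have h6 : 0 ≤ Ce * (M : ℝ) ^ (-(5 / 8) : ℝ) := by positivity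
      linarith
    refine (Pb_mono hC.law.nonneg fun ω _ hn h => hn (h.trans h3)).trans (hf2.trans ?_)
    have h7 : 3 * (3 * (θ / 9) + c3) ≤ θ + 3 * (B3 * θ) := by linarith
    have h8 : 0 ≤ B3 * θ := by positivity
    have h9 : 0 ≤ B4 * θ := by positivity
    have h10 : (4 + 7 * B3 + 3 * B4) * θ = 4 * θ + 7 * (B3 * θ) + 3 * (B4 * θ) := by ring
    linarith
  · have h3 : 3 * dc ≤ (M : ℝ) ^ (-(1 / 8) : ℝ) := by
      have h5 : 0 ≤ Cd * (M : ℝ) ^ (-(5 / 8) : ℝ) := by positivity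
      linarith
    refine (Pb_mono (Pool.STB.glueLaw' hC.law hC.law fun _ => rfl).nonneg fun w _ hn h =>
      hn fun q hq => (h q hq).trans h3).trans (hf3.trans ?_)
    have h8 : 0 ≤ B3 * θ := by positivity
    have h9 : 0 ≤ B4 * θ := by positivity
    have h10 : (4 + 7 * B3 + 3 * B4) * θ = 4 * θ + 7 * (B3 * θ) + 3 * (B4 * θ) := by ring
    linarith

end Pool.CL2
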