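import Pool.Agent.H95.CL2.Base

/-!
# A value with few values over the positions, polynomial along the lines: statement

Lines in a plane (the time and one coordinate). The value `V (z)` is few given the position and the closed
record, and it is a polynomial of the time along each line. Then it is a polynomial of the position
which is nearly constant along the lines: a closed polynomial.
-/

set_option autoImplicit false

namespace Pool.CL2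

open Finset Real MvPolynomial
open Pool.Agent.H49.Ent Pool.Agent.H32.Dense Pool.STK
open Pool.BFL (Pb)

section

variable {Ω Λ Z Y 𝒟 : Type} [Fintype Ω]

/-- **The data of the lines with a value.** `L`: the line with its window; `z`: the record with the
time `t`; `y`: the closed record of the window; `D`: the data of a line (its direction); `V`: the
value at a record; `P`: the value along a line, a polynomial of the time. -/
structure CloH (p : Ω → ℝ) (L : Ω → Λ) (z : Ω → Z) (y : Ω → Y) (t : Ω → ℤ) (D : Λ → 𝒟)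
    (X : 𝒟 → V2) (x : Z → V2) (V : Z → ℝ) (P : Λ → Polynomial ℝ) (N M : ℕ) (K e η c : ℝ) :
    Prop where
  law : IsLaw p
  yL : ∀ ω ω', 0 < p ω → 0 < p ω' → L ω = L ω' → y ω = y ω'
  yz : ∀ ω ω', 0 < p ω → 0 < p ω' → z ω = z ω' → y ω = y ω'
  tM : ∀ ω, 0 < p ω → |t ω| ≤ (M : ℤ)
  full : Real.log (2 * M + 1) - e ≤ CH p t L
  free : CH p (fun ω => D (L ω)) y - e ≤ CH p (fun ω => D (L ω)) z
  X1 : ∀ d, Bx 1 (X d)
  x1 : ∀ r, Bx 1 (x r)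
  pos : ∀ ω ω', 0 < p ω → 0 < p ω' → L ω = L ω' →
    Bx (K / M) (x (z ω') - x (z ω) - (((t ω' : ℝ) - t ω) / M) • X (D (L ω)))
  posf : 2 * Real.log (2 * M + 1) - e ≤ CH p (fun ω => cv M (x (z ω))) y
  gp : ∀ H : Z → V2, (∀ r, Bx 1 (H r) ∧ ∃ i, |H r i| = 1) →
    Pb p (fun ω => |∑ i, H (z ω) i * X (D (L ω)) i| ≤ η) ≤ c
  Pd : ∀ l, (P l).natDegree ≤ N
  PK : ∀ l (s : ℝ), |s| ≤ 2 → |(P l).eval s| ≤ K
  VK : ∀ r, |V r| ≤ K
  path : Pb p (fun ω => ¬ |V (z ω) - (P (L ω)).eval ((t ω : ℝ) / M)| ≤ K / M) ≤ c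
  few : CH p (fun ω => ⌊(M : ℝ) * V (z ω)⌋) (fun ω => (cv M (x (z ω)), y ω)) ≤ e

end

/-- **The closed polynomial.** -/
def CloStmt : Prop := ∀ (N : ℕ) (c' κ : ℝ), 0 < c' → 0 < κ → ∃ γ γ₁ : ℝ, 0 < γ ∧ 0 < γ₁ ∧
  ∀ γ₀ : ℝ, 0 < γ₀ → γ₀ ≤ γ₁ → ∃ (e₀ c : ℝ) (M₀ : ℕ), 0 < e₀ ∧ 0 < c ∧
  ∀ (M : ℕ), M₀ ≤ M → ∀ (Ω Λ Z Y 𝒟 : Type) [Fintype Ω] (p : Ω → ℝ) (L : Ω → Λ) (z : Ω → Z)
    (y : Ω → Y) (t : Ω → ℤ) (D : Λ → 𝒟) (X : 𝒟 → V2) (x : Z → V2) (V : Z → ℝ)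
    (P : Λ → Polynomial ℝ),
    CloH p L z y t D X x V P N M ((M : ℝ) ^ e₀) (e₀ * Real.log M) ((M : ℝ) ^ (-γ₀)) c →
    ∃ f : Z → P2, (∀ r, (f r).totalDegree ≤ 2 * N ∧ ∀ q, Bx 1 q → |eval q (f r)| ≤ (M : ℝ) ^ κ) ∧
      Pb p (fun ω => ¬ |V (z ω) - eval (x (z ω)) (f (z ω))| ≤ (M : ℝ) ^ (-γ)) ≤ c' ∧
      Pb (glue p p L L) (fun w => ¬ ∀ q, Bx 1 q →
        |eval q (f (z w.1)) - eval q (f (z w.2))| ≤ (M : ℝ) ^ (-γ)) ≤ c'

end Pool.CL2
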