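import Pool.Agent.H95.CL2.Cmp

/-!
# The closed polynomial: the core
-/

set_option autoImplicit false

namespace Pool.CL2

open Finset Real MvPolynomial
open Pool.Agent.H49.Ent Pool.Agent.H32.Dense Pool.STK
open Pool.BFL (Pb)
open Pool.K2S (cpn)
open Pool.CLU (cpn_law cpn_pos cpn_marg cpn_nonneg)
open Pool.STB (Pb_mono Pb_or Pb_le2 glueLaw' avg_sel)

section

variable {Ω Λ Z Y 𝒟 : Type} [Fintype Ω] {p : Ω → ℝ} {L : Ω → Λ} {z : Ω → Z} {y : Ω → Y} {t : Ω → ℤ}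
  {D : Λ → 𝒟} {X : 𝒟 → V2} {x : Z → V2} {V : Z → ℝ} {P : Λ → Polynomial ℝ} {N M : ℕ}
  {K e η c : ℝ} {E δ c₃ U : ℝ}

open Classical in
/-- **The polynomial of a structure**, in the coordinates of space-time. -/
noncomputable def pl (X : 𝒟 → V2) (η U : ℝ) {𝒲 G : Type} (F : 𝒲 → G → P2)
    (φ : 𝒲 → Y × (Fin 2 → 𝒟)) (u : 𝒲 × G) : P2 :=
  if Gp X η (φ u.1).2 ∧ ∀ s : V2, Bx 3 s → |eval s (F u.1 u.2)| ≤ U then
    sb X η (φ u.1).2 (F u.1 u.2) else 0

theorem pl_deg {𝒲 G : Type} {F : 𝒲 → G → P2} {φ : 𝒲 → Y × (Fin 2 → 𝒟)}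
    (hF : ∀ w h i, (F w h).degreeOf i ≤ N) (u : 𝒲 × G) :
    (pl X η U F φ u).totalDegree ≤ 2 * N := by
  unfold pl
  split_ifs
  · exact (sb_deg _).trans (tdeg_le (hF _ _))
  · simp

theorem pl_eval {𝒲 G : Type} {F : 𝒲 → G → P2} {φ : 𝒲 → Y × (Fin 2 → 𝒟)} {u : 𝒲 × G}
    (h1 : Gp X η (φ u.1).2) (h2 : ∀ s : V2, Bx 3 s → |eval s (F u.1 u.2)| ≤ U) (q : V2) :
    eval q (pl X η U F φ u) = eval (cr X η (φ u.1).2 q) (F u.1 u.2) := by
  unfold pl
  rw [if_pos ⟨h1, h2⟩, sb_eval h1]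

theorem pl_bd (hη : 0 < η) (hX : ∀ d, Bx 1 (X d)) (hU : 0 ≤ U) {𝒲 G : Type} {F : 𝒲 → G → P2}
    {φ : 𝒲 → Y × (Fin 2 → 𝒟)} (u : 𝒲 × G) (s : V2) (hs : Bx 3 s) :
    |eval s (pl X η U F φ u)| ≤ U := by
  by_cases h : Gp X η (φ u.1).2 ∧ ∀ s : V2, Bx 3 s → |eval s (F u.1 u.2)| ≤ U
  · rw [pl_eval h.1 h.2]
    exact h.2 _ (cr_bx hη hX hs)
  · unfold pl
    rw [if_neg h, map_zero, abs_zero]
    exact hU

/-- The error of the values. -/
noncomputable def dv (Cl U K δ C₁ η : ℝ) (M : ℕ) : ℝ :=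
  δ + Cl * U * (3 * K / M) + dl C₁ K η M

variable {D3 : Lv (cpn p z 1) (w0 L y D) (ro M L z D X x η) (fun w => V (z (w 0))) M N ∅ E δ c₃ U}

/-- **The value at the base sample.** -/
theorem pl_val (hC : CloH p L z y t D X x V P N M K e η c) (hM : 1 ≤ M) (hη : 0 < η) (hK : 1 ≤ K)
    {C₁ Cl : ℝ} (hC1 : 0 ≤ C₁) (hCl1 : 0 ≤ Cl) (hCl : ∀ (Φ : P2) (U : ℝ), Φ.totalDegree ≤ 2 * N →
      (∀ s : V2, Bx 3 s → |eval s Φ| ≤ U) → ∀ (u e : V2) (ε : ℝ), 0 ≤ ε → ε ≤ 1 → Bx 2 u →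
      Bx ε e → |eval (u + e) Φ - eval u Φ| ≤ Cl * U * ε) (hU : 0 ≤ U)
    {φ : D3.𝒲 → Y × (Fin 2 → 𝒟)} (hφ : ∀ w, φ (D3.W w) = w0 L y D (D3.σ w)) {w : D3.Ω}
    (hG : Gp X η (dd L D (D3.σ w)))
    (hv : |V (z (D3.σ w 0)) - eval (pt M (ro M L z D X x η (D3.σ w))) (D3.F (D3.W w) (D3.g w))| ≤ δ ∧
      ∀ s : V2, Bx 3 s → |eval s (D3.F (D3.W w) (D3.g w))| ≤ U) :
    |V (zb z D3 w) - eval (x (zb z D3 w)) (pl X η U D3.F φ (D3.W w, D3.g w))| ≤
      dv Cl U K δ C₁ η M := by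
  have hM0 : (0 : ℝ) < M := by exact_mod_cast hM
  have hM1 : (1 : ℝ) ≤ M := by exact_mod_cast hM
  have hφ2 : (φ (D3.W w)).2 = dd L D (D3.σ w) := by rw [hφ]; rfl
  have h1 : Gp X η (φ (D3.W w)).2 := by rw [hφ2]; exact hG
  rw [pl_eval (u := (D3.W w, D3.g w)) h1 hv.2]
  have hq : Bx 1 (cr X η (dd L D (D3.σ w)) (x (z (D3.σ w 0)))) := cr_bx hη hC.X1 (hC.x1 _)
  obtain ⟨q, hqd⟩ : ∃ q, q = cr X η (dd L D (D3.σ w)) (x (z (D3.σ w 0))) := ⟨_, rfl⟩
  rw [← hqd] at hq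
  have hro : ro M L z D X x η (D3.σ w) = cv M q := by rw [hqd]; rfl
  have hn : Bx (1 / (M : ℝ)) (pt M (cv M q) - q) := fun i => by
    rw [Pi.sub_apply]
    exact pt_near hM q i
  have h1M : 1 / (M : ℝ) ≤ 1 := by
    rw [div_le_one hM0]
    exact hM1
  have h2 := hCl (D3.F (D3.W w) (D3.g w)) U (tdeg_le (D3.deg _ _)) hv.2 q (pt M (cv M q) - q)
    (1 / M) (by positivity) h1M (fun i => (hq i).trans (by norm_num)) hn
  rw [add_sub_cancel] at h2
  have h3 := hv.1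
  rw [hro] at h3
  have e1 : eval (cr X η (φ (D3.W w)).2 (x (zb z D3 w))) (D3.F (D3.W w) (D3.g w)) =
      eval q (D3.F (D3.W w) (D3.g w)) := by
    rw [hφ2, hqd]
    rfl
  show |V (z (D3.σ w 0)) - eval (cr X η (φ (D3.W w)).2 (x (zb z D3 w)))
    (D3.F (D3.W w) (D3.g w))| ≤ _
  rw [e1]
  unfold dv
  have h4 : Cl * U * (1 / M) ≤ Cl * U * (3 * K / M) :=
    mul_le_mul_of_nonneg_left (div_le_div_of_nonneg_right (by linarith) hM0.le) (by positivity)
  have h5 : 0 ≤ dl C₁ K η M := by unfold dl; positivity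
  obtain ⟨A1, A2⟩ := abs_le.1 h2
  obtain ⟨B1, B2⟩ := abs_le.1 h3
  exact abs_le.2 ⟨by linarith, by linarith⟩

/-- **The value at a sample of the third line.** -/
theorem pl_line (hC : CloH p L z y t D X x V P N M K e η c) (hM : 1 ≤ M) (hη : 0 < η) (hK : 1 ≤ K)
    {x0 : Λ → V2}
    (h0 : ∀ ω, 0 < p ω → Bx (K / M) (x (z ω) - x0 (L ω) - ((t ω : ℝ) / M) • X (D (L ω))))
    {C₁ Cl : ℝ} (hC₁ : ∀ (P : Polynomial ℝ) (U : ℝ), P.natDegree ≤ N →
      (∀ s : ℝ, |s| ≤ 2 → |P.eval s| ≤ U) → ∀ s s' : ℝ, |s| ≤ 2 → |s'| ≤ 2 →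
      |P.eval s - P.eval s'| ≤ C₁ * U * |s - s'|) (hC1 : 0 ≤ C₁) (hCl1 : 0 ≤ Cl)
    (hCl : ∀ (Φ : P2) (U : ℝ), Φ.totalDegree ≤ 2 * N →
      (∀ s : V2, Bx 3 s → |eval s Φ| ≤ U) → ∀ (u e : V2) (ε : ℝ), 0 ≤ ε → ε ≤ 1 → Bx 2 u →
      Bx ε e → |eval (u + e) Φ - eval u Φ| ≤ Cl * U * ε) (hU : 0 ≤ U)
    (hsm : 6 / η ^ 3 * (1 / M + K / M) ≤ 1) (hKM : 3 * K / M ≤ 1)
    {φ : D3.𝒲 → Y × (Fin 2 → 𝒟)} (hφ : ∀ w, φ (D3.W w) = w0 L y D (D3.σ w)) {w : D3.Ω}
    (hw : 0 < D3.q w) (hG : Gp X η (dd L D (D3.σ w)))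
    (hv : ∀ s : V2, Bx 3 s → |eval s (D3.F (D3.W w) (D3.g w))| ≤ U)
    (hp : ∀ s : ℝ, |s| ≤ 3 → |(bp X η P x0 1 (dd L D (D3.σ w)) (L (D3.σ w 1))).eval s -
      eval (Function.update (pt M (ro M L z D X x η (D3.σ w))) 1 s) (D3.F (D3.W w) (D3.g w))| ≤ δ)
    {ω : Ω} (hω : 0 < p ω) (hL : L ω = L (D3.σ w 1))
    (hpa : |V (z ω) - (P (L ω)).eval ((t ω : ℝ) / M)| ≤ K / M) :
    |V (z ω) - eval (x (z ω)) (pl X η U D3.F φ (D3.W w, D3.g w))| ≤ dv Cl U K δ C₁ η M := by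
  have hM0 : (0 : ℝ) < M := by exact_mod_cast hM
  have hM1 : (1 : ℝ) ≤ M := by exact_mod_cast hM
  have h3 : (0 : ℝ) < η ^ 3 := by positivity
  have hφ2 : (φ (D3.W w)).2 = dd L D (D3.σ w) := by rw [hφ]; rfl
  have h1 : Gp X η (φ (D3.W w)).2 := by rw [hφ2]; exact hG
  rw [pl_eval (u := (D3.W w, D3.g w)) h1 hv]
  obtain ⟨a1, a2⟩ := cpn_pos hC.law.nonneg z 1 _ (D3.mg.pos D3.law.nonneg hw)
  obtain ⟨d, hd⟩ : ∃ d, d = dd L D (D3.σ w) := ⟨_, rfl⟩
  obtain ⟨q, hq⟩ : ∃ q, q = cr X η d (x (z ω)) := ⟨_, rfl⟩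
  obtain ⟨r, hr⟩ : ∃ r, r = cr X η d (x (z (D3.σ w 0))) := ⟨_, rfl⟩
  have hdD : d 1 = D (L ω) := by rw [hd, hL]; rfl
  have hdD' : d 1 = D (L (D3.σ w 1)) := by rw [hd]; rfl
  have hGd : Gp X η d := by rw [hd]; exact hG
  have hq1 : Bx 1 q := by rw [hq]; exact cr_bx hη hC.X1 (hC.x1 _)
  have hr1 : Bx 1 r := by rw [hr]; exact cr_bx hη hC.X1 (hC.x1 _)
  -- the own path
  have b1 := bp_close hC hM h0 hη hC₁ hC1 hGd hω hdD (s := q 1) (τ := 0) (by linarith)
    (by rw [← hq, sub_self, abs_zero]) (by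
      refine le_trans ?_ hsm
      refine mul_le_mul_of_nonneg_left ?_ (by positivity)
      have : 0 ≤ 1 / (M : ℝ) := by positivity
      linarith)
  -- the interpolation
  have b2 := hp (q 1) ((hq1 1).trans (by norm_num))
  rw [← hd, ← hL] at b2
  have hro : ro M L z D X x η (D3.σ w) = cv M r := by rw [hr, hd]; rfl
  rw [hro] at b2
  -- the other coordinates
  have b3 : Bx (3 * K / M) (Function.update (pt M (cv M r)) 1 (q 1) - q) := by
    intro b
    by_cases hb : b = 1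
    · rw [hb, Pi.sub_apply, Function.update_self, sub_self, abs_zero]
      positivity
    · rw [Pi.sub_apply, Function.update_of_ne hb]
      have c1 := pt_near hM r b
      have c2 := line_cr hC h0 hη hGd hω hdD b
      have c3 := line_cr hC h0 hη hGd (a1 1) hdD' b
      rw [if_neg hb, sub_zero] at c2 c3
      rw [show z (D3.σ w 1) = z (D3.σ w 0) from a2 1, ← hr, ← hL] at c3
      rw [← hq] at c2
      have c4 : 1 / (M : ℝ) ≤ K / M := div_le_div_of_nonneg_right hK hM0.le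
      have c5 : 3 * K / M = K / M + K / M + K / M := by ring
      rw [c5]
      obtain ⟨A1, A2⟩ := abs_le.1 c1
      obtain ⟨B1, B2⟩ := abs_le.1 c2
      obtain ⟨C1, C2⟩ := abs_le.1 c3
      exact abs_le.2 ⟨by linarith, by linarith⟩
  have b4 := hCl (D3.F (D3.W w) (D3.g w)) U (tdeg_le (D3.deg _ _)) hv q
    (Function.update (pt M (cv M r)) 1 (q 1) - q) (3 * K / M) (by positivity) hKM
    (fun i => (hq1 i).trans (by norm_num)) b3
  rw [add_sub_cancel] at b4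
  show |V (z ω) - eval (cr X η (φ (D3.W w)).2 (x (z ω))) (D3.F (D3.W w) (D3.g w))| ≤ _
  rw [hφ2, ← hd, ← hq]
  have b5 : K / M + C₁ * K * (6 / η ^ 3 * (0 + K / M)) ≤ dl C₁ K η M := by
    unfold dl
    have h6 : 6 / η ^ 3 * (0 + K / M) ≤ 6 / η ^ 3 * (1 / M + K / M) := by
      refine mul_le_mul_of_nonneg_left ?_ (by positivity)
      have : 0 ≤ 1 / (M : ℝ) := by positivity
      linarith
    have h7 := mul_le_mul_of_nonneg_left h6 (show 0 ≤ C₁ * K by positivity)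
    linarith
  unfold dv
  obtain ⟨A1, A2⟩ := abs_le.1 b1
  obtain ⟨B1, B2⟩ := abs_le.1 b2
  obtain ⟨C1, C2⟩ := abs_le.1 b4
  obtain ⟨E1, E2⟩ := abs_le.1 hpa
  exact abs_le.2 ⟨by linarith, by linarith⟩

/-- **The position of a sample of the third line given the record of a level.** -/
theorem pos_line (hC : CloH p L z y t D X x V P N M K e η c) (hM : 1 ≤ M) (hη : 0 < η)
    (hη1 : η ≤ 1) (hK : 1 ≤ K) (hc : 0 ≤ c) :
    2 * Real.log (2 * M + 1) - (5 * e + 8 * ell K η c M + E) ≤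
      CH (glue D3.q p (fun w => L (D3.σ w 1)) L) (fun w => cv M (x (z w.2))) (fun w => D3.W w.1) := by
  classical
  have p0 := hC.law.nonneg
  have m0 := cpn_nonneg p0 z 1
  have d0 := D3.law.nonneg
  have hM0 : (0 : ℝ) < M := by exact_mod_cast hM
  have h3 : (0 : ℝ) < η ^ 3 := by positivity
  have h31 : η ^ 3 ≤ 1 := pow_le_one₀ hη.le hη1
  have hell := ell_nonneg (M := M) hM hη hη1 hK hc
  obtain ⟨x0, hx0⟩ := base hC
  have hKM : (M : ℝ) * (K / M) = K := by field_simp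
  have hlaw : ∀ u, law D3.q (fun w => L (D3.σ w 1)) u = law p L u := fun u =>
    (D3.mg.comp (cpn_marg p0 z 1 1)).law L u
  have gl := glueLaw' D3.law hC.law hlaw
  have g0 := gl.nonneg
  obtain ⟨φ, hφ⟩ := D3.w0
  have hpos : ∀ w, 0 < D3.q w → (∀ i, 0 < p (D3.σ w i)) ∧ ∀ i, z (D3.σ w i) = z (D3.σ w 0) :=
    fun w hw => cpn_pos p0 z 1 _ (D3.mg.pos d0 hw)
  have hlog : 0 ≤ Real.log (2 * M + 1) := Real.log_nonneg (by
    have : (0 : ℝ) ≤ M := hM0.le
    linarith)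
  -- the first two coordinates
  obtain ⟨R, hR⟩ : ∃ R : (Fin 2 → Ω) → Fin 2 → ℤ, R = fun w =>
    rs (univ.erase 1) (ro M L z D X x η w) := ⟨_, rfl⟩
  have s1 : 1 * Real.log (2 * M + 1) - (4 * e + 3 * ell K η c M) ≤
      CH (cpn p z 1) R (w0 L y D) := by
    have a1 := CH_le_add m0 (fun w => cv M (x (z (w 0)))) (ro M L z D X x η) (w0 L y D)
    have a2 := c2_star hC hM hη hη1 (by linarith : (0 : ℝ) ≤ K)
    have a3 : CH (cpn p z 1) (fun w => cv M (x (z (w 0)))) (fun w => (ro M L z D X x η w,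
        w0 L y D w)) = CH (cpn p z 1) (fun w => cv M (x (z (w 0))))
          (fun w => (w0 L y D w, ro M L z D X x η w)) := Pool.MIC.CH_swc m0 _ _ _
    have a4 := free_star hC (fun r : Z => cv M (x r))
    have a5 : CH (cpn p z 1) (fun w => cv M (x (z (w 0)))) (w0 L y D) =
        CH (cpn p z 1) (fun w => cv M (x (z (w 0)))) (fun w => (y (w 0), dd L D w)) := rfl
    have a6 := hC.posf
    have b1 := CH_le_add m0 (ro M L z D X x η) R (w0 L y D)
    have b2 : CH (cpn p z 1) (ro M L z D X x η) (fun w => (R w, w0 L y D w)) ≤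
        CH (cpn p z 1) (fun w => ro M L z D X x η w 1) (fun w => (R w, w0 L y D w)) := by
      refine CH_mono_left m0 fun w w' _ _ h => funext fun i => ?_
      have k1 : ro M L z D X x η w 1 = ro M L z D X x η w' 1 := (Prod.ext_iff.1 h).1
      have k2 : R w = R w' := (Prod.ext_iff.1 (Prod.ext_iff.1 h).2).1
      by_cases hi : i = 1
      · rw [hi]; exact k1
      · have k3 := congrFun k2 i
        rw [hR] at k3
        simp only [rs] at k3
        rw [if_pos (Finset.mem_erase.2 ⟨hi, Finset.mem_univ i⟩),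
          if_pos (Finset.mem_erase.2 ⟨hi, Finset.mem_univ i⟩)] at k3
        exact k3
    have b3 : CH (cpn p z 1) (fun w => ro M L z D X x η w 1) (fun w => (R w, w0 L y D w)) ≤
        Real.log (2 * M + 1) := by
      have h3 := CH_le_card m0 (cpn_law hC.law z 1).sum_one (fun w => ro M L z D X x η w 1)
        (fun w => (R w, w0 L y D w)) (fun _ => Finset.Icc (-(M : ℤ)) M)
        (fun w _ => by
          rw [Finset.mem_Icc, ← abs_le]
          exact ro_le hC hη w 1)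
      have hc : (Finset.Icc (-(M : ℤ)) M).card = 2 * M + 1 := by
        rw [Int.card_Icc]
        omega
      rw [Ex_const (cpn_law hC.law z 1).sum_one, hc] at h3
      push_cast at h3
      exact h3
    unfold ell at hell ⊢
    linarith
  have s1' : 1 * Real.log (2 * M + 1) - (4 * e + 3 * ell K η c M) - E ≤
      CH D3.q (fun w => R (D3.σ w)) D3.W := by
    have a1 := D3.full (Fin 2 → ℤ) Unit R (fun _ => ())
    have a2 : CH (cpn p z 1) R (fun w => ((), w0 L y D w)) = CH (cpn p z 1) R (w0 L y D) :=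
      CH_congr m0 (fun _ _ _ _ h => (Prod.ext_iff.1 h).1) (fun _ _ _ _ h => (Prod.ext_iff.1 h).1)
        (fun _ _ _ _ h => (Prod.ext_iff.1 h).2) (fun _ _ _ _ h => Prod.ext rfl h)
    have a3 : CH D3.q (fun w => R (D3.σ w)) (fun w => ((), D3.W w)) =
        CH D3.q (fun w => R (D3.σ w)) D3.W :=
      CH_congr d0 (fun _ _ _ _ h => (Prod.ext_iff.1 h).1) (fun _ _ _ _ h => (Prod.ext_iff.1 h).1)
        (fun _ _ _ _ h => (Prod.ext_iff.1 h).2) (fun _ _ _ _ h => Prod.ext rfl h)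
    linarith
  -- the third coordinate
  obtain ⟨τ, hτ⟩ : ∃ τ : D3.Ω × Ω → ℤ, τ = fun w =>
    cv M (cr X η (dd L D (D3.σ w.1)) (x (z w.2))) 1 := ⟨_, rfl⟩
  have hτM : ∀ w, |τ w| ≤ (M : ℤ) := fun w => by
    rw [hτ]
    exact cv_le (cr_bx hη hC.X1 (hC.x1 _)) 1
  have hgp : ∀ w, 0 < glue D3.q p (fun w => L (D3.σ w 1)) L w →
      0 < D3.q w.1 ∧ 0 < p w.2 ∧ L (D3.σ w.1 1) = L w.2 := fun w hw =>
    (glue_pos_iff d0 p0 w).1 hw
  have hGp : Pb (glue D3.q p (fun w => L (D3.σ w 1)) L) (fun w => ¬ Gp X η (dd L D (D3.σ w.1))) ≤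
      3 * c := by
    rw [Pool.MIC.Marg.Pb_eq (marg_fst d0 hlaw) (fun w => ¬ Gp X η (dd L D (D3.σ w))),
      Pool.MIC.Marg.Pb_eq D3.mg (fun w => ¬ Gp X η (dd L D w))]
    exact gp_star hC hη hη1
  have s2 : Real.log (2 * M + 1) - (e + ell K η c M) ≤
      CH (glue D3.q p (fun w => L (D3.σ w 1)) L) τ (fun w => w.1) := by
    have a1 := Pool.DY1.CH_glue (A := fun w : D3.Ω => w) d0 p0 hlaw
      (fun w w' _ _ h => by
        have h' : w = w' := h
        rw [h']) t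
    have a2 := CH_le_add g0 (fun w : D3.Ω × Ω => t w.2) τ (fun w => w.1)
    have a3 := hC.full
    have a4 : CH (glue D3.q p (fun w => L (D3.σ w 1)) L) (fun w : D3.Ω × Ω => t w.2)
        (fun w => (τ w, w.1)) ≤ ell K η c M := by
      have hA : (1 : ℝ) ≤ 6 / η ^ 3 * (K + 1) := by
        have : (1 : ℝ) ≤ 6 / η ^ 3 := by rw [le_div_iff₀ h3]; linarith
        nlinarith
      have h1 := CH_near gl (fun w : D3.Ω × Ω => t w.2) (fun w => (τ w, w.1))
        (fun v => 6 / η ^ 3 * ((v.1 : ℝ) - M * cr X η (dd L D (D3.σ v.2))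
          (x0 (L (D3.σ v.2 1))) 1))
        (fun w => Gp X η (dd L D (D3.σ w.1))) hA (M := M)
        (fun w hw => hC.tM _ (hgp w hw).2.1) ?_
      · refine h1.trans ?_
        have h4 := mul_le_mul_of_nonneg_right hGp hlog
        have h5 : Real.log (3 * (6 / η ^ 3 * (K + 1))) ≤ Real.log (57 * (K + 1) / η ^ 3) := by
          refine Real.log_le_log (by positivity) ?_
          rw [show 3 * (6 / η ^ 3 * (K + 1)) = 18 * (K + 1) / η ^ 3 by ring]
          exact div_le_div_of_nonneg_right (by linarith) h3.le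
        unfold ell
        linarith
      · intro w hw hg
        obtain ⟨w1, w2, w3⟩ := hgp w hw
        have h2 := line_cr hC hx0 hη hg w2 (a := 1) (by
          show D (L (D3.σ w.1 1)) = _
          rw [w3]) 1
        rw [if_pos rfl, ← w3] at h2
        have h4 := cv_near M (cr X η (dd L D (D3.σ w.1)) (x (z w.2))) 1
        show |(t w.2 : ℝ) - 6 / η ^ 3 * ((τ w : ℝ) -
          M * cr X η (dd L D (D3.σ w.1)) (x0 (L (D3.σ w.1 1))) 1)| ≤ _
        have e1 : (t w.2 : ℝ) - 6 / η ^ 3 * ((τ w : ℝ) -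
          M * cr X η (dd L D (D3.σ w.1)) (x0 (L (D3.σ w.1 1))) 1) = -(6 / η ^ 3 * ((((cv M (cr X η
            (dd L D (D3.σ w.1)) (x (z w.2))) 1 : ℤ) : ℝ) - M * cr X η (dd L D (D3.σ w.1))
              (x (z w.2)) 1) +
            M * (cr X η (dd L D (D3.σ w.1)) (x (z w.2)) 1 - cr X η (dd L D (D3.σ w.1))
              (x0 (L (D3.σ w.1 1))) 1 - η ^ 3 / 6 * ((t w.2 : ℝ) / M)))) := by
          rw [hτ]
          field_simp
          ring
        rw [e1, abs_neg, abs_mul, abs_of_pos (by positivity)]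
        refine mul_le_mul_of_nonneg_left ?_ (by positivity)
        refine (abs_add_le _ _).trans ?_
        rw [abs_mul, abs_of_pos hM0]
        have h5 := mul_le_mul_of_nonneg_left h2 hM0.le
        rw [hKM] at h5
        linarith
    linarith
  -- both
  have s3 : 2 * Real.log (2 * M + 1) - (5 * e + 4 * ell K η c M + E) ≤
      CH (glue D3.q p (fun w => L (D3.σ w 1)) L) (fun w => (τ w, R (D3.σ w.1)))
        (fun w => D3.W w.1) := by
    rw [CH_chain g0 τ (fun w : D3.Ω × Ω => R (D3.σ w.1)) (fun w => D3.W w.1)]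
    have a1 : CH (glue D3.q p (fun w => L (D3.σ w 1)) L) (fun w => R (D3.σ w.1))
        (fun w => D3.W w.1) = CH D3.q (fun w => R (D3.σ w)) D3.W :=
      Pool.DY1.CH_glue_fst d0 hlaw D3.W (fun w => R (D3.σ w))
    have a2 : CH (glue D3.q p (fun w => L (D3.σ w 1)) L) τ (fun w => w.1) ≤
        CH (glue D3.q p (fun w => L (D3.σ w 1)) L) τ (fun w => (R (D3.σ w.1), D3.W w.1)) :=
      CH_mono_cond g0 fun w w' _ _ h => by
        have h' : w.1 = w'.1 := h
        show (R (D3.σ w.1), D3.W w.1) = (R (D3.σ w'.1), D3.W w'.1)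
        rw [h']
    linarith
  -- the coordinates given the position
  have hsmall : Real.log 2 + Real.log (3 * (2 * K + 2)) ≤ ell K η c M := by
    have h5 : Real.log (3 * (2 * K + 2)) ≤ Real.log (57 * (K + 1) / η ^ 3) := by
      refine Real.log_le_log (by positivity) ?_
      rw [le_div_iff₀ h3]
      nlinarith
    have h6 : 0 ≤ 3 * c * Real.log (2 * M + 1) := by positivity
    unfold ell
    linarith
  have hT : ∀ q : D3.Ω × Ω → ℝ, Pb q (fun _ => ¬ True) = 0 := fun q => by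
    unfold Pb
    refine Finset.sum_eq_zero fun v _ => if_neg fun h => h trivial
  have hcrn : ∀ (d : Fin 2 → 𝒟) (ζ : V2) (b : Fin 2),
      |(M : ℝ) * (cr X η d ζ b - cr X η d (pt M (cv M ζ)) b)| ≤ 1 := by
    intro d ζ b
    have h1 : Bx (1 / (M : ℝ)) (ζ - pt M (cv M ζ)) := fun i => by
      rw [Pi.sub_apply, abs_sub_comm]
      exact pt_near hM ζ i
    have h2 := cr_bx (η := η) (d := d) hη hC.X1 h1 b
    rw [cr_sub, Pi.sub_apply] at h2
    rw [abs_mul, abs_of_pos hM0]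
    have h4 := mul_le_mul_of_nonneg_left h2 hM0.le
    rwa [show (M : ℝ) * (1 / M) = 1 by field_simp] at h4
  have s4 : CH (glue D3.q p (fun w => L (D3.σ w 1)) L) τ
      (fun w => (cv M (x (z w.2)), D3.W w.1)) ≤ ell K η c M := by
    have h1 := CH_near gl τ (fun w => (cv M (x (z w.2)), D3.W w.1))
      (fun v => (M : ℝ) * cr X η (φ v.2).2 (pt M v.1) 1) (fun _ => True) (A := 2 * K + 2)
      (by linarith) (M := M) (fun w _ => hτM w) ?_
    · rw [hT, zero_mul, add_zero] at h1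
      exact h1.trans hsmall
    · intro w _ _
      have hφ2 : (φ (D3.W w.1)).2 = dd L D (D3.σ w.1) := by rw [hφ]; rfl
      show |(τ w : ℝ) - (M : ℝ) * cr X η (φ (D3.W w.1)).2 (pt M (cv M (x (z w.2)))) 1| ≤ _
      rw [hφ2]
      have h2 := cv_near M (cr X η (dd L D (D3.σ w.1)) (x (z w.2))) 1
      have h4 := hcrn (dd L D (D3.σ w.1)) (x (z w.2)) 1
      have h5 : (τ w : ℝ) = ((cv M (cr X η (dd L D (D3.σ w.1)) (x (z w.2))) 1 : ℤ) : ℝ) := by
        rw [hτ]
      rw [h5]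
      obtain ⟨A1, A2⟩ := abs_le.1 h2
      obtain ⟨B1, B2⟩ := abs_le.1 h4
      exact abs_le.2 ⟨by linarith, by linarith⟩
  have s5 : CH (glue D3.q p (fun w => L (D3.σ w 1)) L) (fun w => R (D3.σ w.1))
      (fun w => (cv M (x (z w.2)), D3.W w.1)) ≤ 3 * ell K η c M := by
    refine (Pool.H54.QF.CH_pi_le g0 _ 2 (fun w : D3.Ω × Ω => R (D3.σ w.1))).trans ?_
    have h1 : ∀ b : Fin 2, CH (glue D3.q p (fun w => L (D3.σ w 1)) L)
        (fun w : D3.Ω × Ω => R (D3.σ w.1) b) (fun w => (cv M (x (z w.2)), D3.W w.1)) ≤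
        ell K η c M := by
      intro b
      have h1 := CH_near gl (fun w : D3.Ω × Ω => R (D3.σ w.1) b)
        (fun w => (cv M (x (z w.2)), D3.W w.1))
        (fun v => if b = 1 then 0 else (M : ℝ) * cr X η (φ v.2).2 (pt M v.1) b)
        (fun _ => True) (A := 2 * K + 2) (by linarith) (M := M) (fun w _ => ?_) ?_
      · rw [hT, zero_mul, add_zero] at h1
        exact h1.trans hsmall
      · rw [hR]
        show |rs _ _ b| ≤ _
        unfold rs
        split_ifs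
        · exact ro_le hC hη _ b
        · rw [abs_zero]
          exact Int.natCast_nonneg M
      · intro w hw _
        obtain ⟨w1, w2, w3⟩ := hgp w hw
        have hφ2 : (φ (D3.W w.1)).2 = dd L D (D3.σ w.1) := by rw [hφ]; rfl
        show |(R (D3.σ w.1) b : ℝ) - (if b = 1 then 0 else
          (M : ℝ) * cr X η (φ (D3.W w.1)).2 (pt M (cv M (x (z w.2)))) b)| ≤ _
        rw [hφ2]
        by_cases hb : b = 1
        · have h5 : R (D3.σ w.1) b = 0 := by
            rw [hR]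
            show rs _ _ b = 0
            unfold rs
            rw [if_neg (by rw [hb]; exact Finset.notMem_erase 1 _)]
          rw [if_pos hb, h5, Int.cast_zero, sub_zero, abs_zero]
          linarith
        · rw [if_neg hb]
          have h5 : R (D3.σ w.1) b = cv M (cr X η (dd L D (D3.σ w.1)) (x (z (D3.σ w.1 0)))) b := by
            rw [hR]
            show rs _ _ b = _
            unfold rs
            rw [if_pos (Finset.mem_erase.2 ⟨hb, Finset.mem_univ b⟩)]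
            rfl
          rw [h5]
          have h2 := cv_near M (cr X η (dd L D (D3.σ w.1)) (x (z (D3.σ w.1 0)))) b
          have h4 := hcrn (dd L D (D3.σ w.1)) (x (z w.2)) b
          have h6 : |(M : ℝ) * (cr X η (dd L D (D3.σ w.1)) (x (z (D3.σ w.1 0))) b -
              cr X η (dd L D (D3.σ w.1)) (x (z w.2)) b)| ≤ 2 * K := by
            by_cases hg : Gp X η (dd L D (D3.σ w.1))
            · have c2 := line_cr hC hx0 hη hg w2 (a := 1) (by
                show D (L (D3.σ w.1 1)) = _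
                rw [w3]) b
              have c3 := line_cr hC hx0 hη hg ((hpos _ w1).1 1) (a := 1) rfl b
              rw [if_neg hb, sub_zero] at c2 c3
              rw [(hpos _ w1).2 1] at c3
              rw [← w3] at c2
              rw [abs_mul, abs_of_pos hM0]
              have c4 : |cr X η (dd L D (D3.σ w.1)) (x (z (D3.σ w.1 0))) b -
                  cr X η (dd L D (D3.σ w.1)) (x (z w.2)) b| ≤ 2 * (K / M) := by
                obtain ⟨A1, A2⟩ := abs_le.1 c2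
                obtain ⟨B1, B2⟩ := abs_le.1 c3
                exact abs_le.2 ⟨by linarith, by linarith⟩
              have c5 := mul_le_mul_of_nonneg_left c4 hM0.le
              rwa [show (M : ℝ) * (2 * (K / M)) = 2 * K by field_simp] at c5
            · rw [cr_bad hg, cr_bad hg]
              simp
              linarith
          obtain ⟨A1, A2⟩ := abs_le.1 h2
          obtain ⟨B1, B2⟩ := abs_le.1 h4
          obtain ⟨C1, C2⟩ := abs_le.1 h6
          exact abs_le.2 ⟨by linarith, by linarith⟩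
    refine (Finset.sum_le_sum fun b _ => h1 b).trans ?_
    rw [Finset.sum_const, Finset.card_univ, Fintype.card_fin, nsmul_eq_mul]
    push_cast
    linarith
  have s6 := CH_le_add g0 (fun w : D3.Ω × Ω => (τ w, R (D3.σ w.1)))
    (fun w => cv M (x (z w.2))) (fun w => D3.W w.1)
  have s7 := CH_subadd g0 τ (fun w : D3.Ω × Ω => R (D3.σ w.1))
    (fun w => (cv M (x (z w.2)), D3.W w.1))
  linarith

end

end Pool.CL2
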