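import Pool.Agent.H95.CL2.Str2

/-!
# The levels of the interpolation over the star
-/

set_option autoImplicit false

namespace Pool.CL2

open Finset Real MvPolynomial
open Pool.Agent.H49.Ent Pool.Agent.H32.Dense Pool.STK
open Pool.BFL (Pb)
open Pool.K2S (cpn)
open Pool.CLU (cpn_law cpn_pos cpn_marg cpn_nonneg)
open Pool.STB (Pb_mono Pb_or Pb_le2)

/-- The entropy of the roundings. -/
noncomputable def ell (K η c : ℝ) (M : ℕ) : ℝ :=
  Real.log 2 + Real.log (57 * (K + 1) / η ^ 3) + 3 * c * Real.log (2 * M + 1)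

/-- The factor of the interpolation. -/
noncomputable def Lg (N : ℕ) (ρ : ℝ) : ℝ := (N + 1) * (8 / ρ) ^ N

/-- The probabilities of a step. -/
noncomputable def cc (N : ℕ) (ρ E c : ℝ) : ℝ :=
  (N + 2) * (2 * c) + (N + 1) ^ 2 * ((2 * E + Real.log 2) / Real.log (1 / ρ))

/-- The factor of the entropies. -/
noncomputable def TT (N : ℕ) : ℝ := ((2 * (N + 1) + 1 : ℕ) : ℝ)

section

variable {Ω Λ Z Y 𝒟 : Type} [Fintype Ω] {p : Ω → ℝ} {L : Ω → Λ} {z : Ω → Z} {y : Ω → Y} {t : Ω → ℤ}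
  {D : Λ → 𝒟} {X : 𝒟 → V2} {x : Z → V2} {V : Z → ℝ} {P : Λ → Polynomial ℝ} {N M : ℕ}
  {K e η c : ℝ}

theorem ell_nonneg (hM : 1 ≤ M) (hη : 0 < η) (hη1 : η ≤ 1) (hK : 1 ≤ K) (hc : 0 ≤ c) :
    0 ≤ ell K η c M := by
  have h3 : (0 : ℝ) < η ^ 3 := by positivity
  have h31 : η ^ 3 ≤ 1 := pow_le_one₀ hη.le hη1
  have h1 : 0 ≤ Real.log (57 * (K + 1) / η ^ 3) := Real.log_nonneg (by
    rw [le_div_iff₀ h3]
    nlinarith)
  have h2 := Real.log_nonneg (show (1 : ℝ) ≤ 2 by norm_num)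
  have hM0 : (1 : ℝ) ≤ M := by exact_mod_cast hM
  have h4 : 0 ≤ Real.log (2 * M + 1) := Real.log_nonneg (by linarith)
  unfold ell
  positivity

/-- Weaker constants of a level. -/
def Lv.wk {Ω₀ 𝒲₀ : Type} [Fintype Ω₀] {q₀ : Ω₀ → ℝ} {W₀ : Ω₀ → 𝒲₀} {r : Ω₀ → Fin 2 → ℤ}
    {v : Ω₀ → ℝ} {M K : ℕ} {S : Finset (Fin 2)} {E δ c U E' δ' c' U' : ℝ}
    (D : Lv q₀ W₀ r v M K S E δ c U) (hE : E ≤ E') (hδ : δ ≤ δ') (hc : c ≤ c') (hU : U ≤ U') :
    Lv q₀ W₀ r v M K S E' δ' c' U' where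
  Ω := D.Ω
  ft := D.ft
  q := D.q
  law := D.law
  σ := D.σ
  mg := D.mg
  𝒲 := D.𝒲
  W := D.W
  G := D.G
  g := D.g
  F := D.F
  w0 := D.w0
  few := D.few.trans hE
  full := fun T T' f f' => by
    have := D.full T T' f f'
    linarith
  deg := D.deg
  deg0 := D.deg0
  val := (Pb_mono D.law.nonneg fun ω _ h hn => h ⟨hn.1.trans hδ, fun s hs =>
    (hn.2 s hs).trans hU⟩).trans (D.val.trans hc)

/-- **The first level.** -/
theorem lvl0 (hC : CloH p L z y t D X x V P N M K e η c) (hM : 1 ≤ M) (hη : 0 < η)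
    (hη1 : η ≤ 1) (hK : 1 ≤ K) (hc : 0 ≤ c) (he : 0 ≤ e) {δ c₀ : ℝ} (hδ : 1 / (M : ℝ) ≤ δ)
    (hc₀ : 0 ≤ c₀) :
    Nonempty (Lv (cpn p z 1) (w0 L y D) (ro M L z D X x η) (fun w => V (z (w 0))) M N
      (insert 0 (insert 1 ∅)) (4 * (e + ell K η c M)) δ c₀ (K + 1)) := by
  classical
  have p0 := hC.law.nonneg
  have m0 := cpn_nonneg p0 z 1
  have hpos := cpn_pos p0 z 1
  have hM0 : (0 : ℝ) < M := by exact_mod_cast hM
  have hM1 : (1 : ℝ) ≤ M := by exact_mod_cast hM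
  have hell := ell_nonneg (M := M) hM hη hη1 hK hc
  have hround : ∀ u : ℝ, |u - ((⌊(M : ℝ) * u⌋ : ℤ) : ℝ) / M| ≤ 1 / M := by
    intro u
    have h1 := Int.floor_le ((M : ℝ) * u)
    have h2 := Int.lt_floor_add_one ((M : ℝ) * u)
    have e1 : u - ((⌊(M : ℝ) * u⌋ : ℤ) : ℝ) / M = ((M : ℝ) * u - (⌊(M : ℝ) * u⌋ : ℤ)) / M := by
      field_simp
    rw [e1, abs_div, abs_of_pos hM0]
    refine div_le_div_of_nonneg_right ?_ hM0.le
    exact abs_le.2 ⟨by linarith, by linarith⟩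
  have hrs : ∀ r : Fin 2 → ℤ, rs (insert 0 (insert 1 ∅)) r = r := by
    intro r
    funext i
    unfold rs
    rw [if_pos]
    fin_cases i <;> simp
  refine ⟨{
    Ω := Fin (1 + 1) → Ω
    ft := inferInstance
    q := cpn p z 1
    law := cpn_law hC.law z 1
    σ := fun w => w
    mg := Marg.id _
    𝒲 := Y × (Fin 2 → 𝒟)
    W := w0 L y D
    G := ℤ
    g := fun w => ⌊(M : ℝ) * V (z (w 0))⌋
    F := fun _ h => C ((h : ℝ) / M)
    w0 := ⟨fun u => u, fun _ => rfl⟩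
    few := ?_
    full := ?_
    deg := fun _ _ _ => by
      rw [degreeOf_C]
      exact Nat.zero_le _
    deg0 := fun _ _ _ _ => degreeOf_C _ _
    val := ?_ }⟩
  · have h1 := CH_le_add m0 (fun w => ⌊(M : ℝ) * V (z (w 0))⌋) (fun w => cv M (x (z (w 0))))
      (fun w => (w0 L y D w, ro M L z D X x η w))
    have h2 := c2_star hC hM hη hη1 (by linarith : (0 : ℝ) ≤ K)
    have h3 : CH (cpn p z 1) (fun w => ⌊(M : ℝ) * V (z (w 0))⌋) (fun w => (cv M (x (z (w 0))),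
        (w0 L y D w, ro M L z D X x η w))) ≤ CH (cpn p z 1) (fun w => ⌊(M : ℝ) * V (z (w 0))⌋)
        (fun w => (cv M (x (z (w 0))), y (w 0))) := by
      refine CH_mono_cond m0 fun w w' _ _ h => ?_
      have h4 := Prod.ext_iff.1 h
      exact Prod.ext h4.1 (congrArg (fun u => u.1.1) h4.2)
    have h4 : CH (cpn p z 1) (fun w => ⌊(M : ℝ) * V (z (w 0))⌋)
        (fun w => (cv M (x (z (w 0))), y (w 0))) = CH p (fun ω => ⌊(M : ℝ) * V (z ω)⌋)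
        (fun ω => (cv M (x (z ω)), y ω)) :=
      (cpn_marg p0 z 1 0).CH (fun ω => ⌊(M : ℝ) * V (z ω)⌋) (fun ω => (cv M (x (z ω)), y ω))
    have h5 := hC.few
    have h6 : CH (cpn p z 1) (fun w => ⌊(M : ℝ) * V (z (w 0))⌋) (fun w => (w0 L y D w,
        rs (insert 0 (insert 1 ∅)) (ro M L z D X x η w))) =
        CH (cpn p z 1) (fun w => ⌊(M : ℝ) * V (z (w 0))⌋)
          (fun w => (w0 L y D w, ro M L z D X x η w)) := by
      congr 1
      funext w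
      rw [hrs]
    rw [h6]
    unfold ell
    have h7 : 0 ≤ ell K η c M := hell
    unfold ell at h7
    linarith
  · intro T T' f f'
    have : 0 ≤ 4 * (e + ell K η c M) := by positivity
    linarith
  · refine le_trans (le_of_eq ?_) hc₀
    unfold Pb
    refine Finset.sum_eq_zero fun w _ => if_neg ?_
    rw [not_not]
    refine ⟨?_, fun s _ => ?_⟩
    · rw [eval_C]
      exact (hround _).trans hδ
    · rw [eval_C]
      have h1 := hround (V (z (w 0)))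
      have h2 := hC.VK (z (w 0))
      have h3 : 1 / (M : ℝ) ≤ 1 := by
        rw [div_le_one hM0]
        exact hM1
      have h4 := abs_sub_abs_le_abs_sub (((⌊(M : ℝ) * V (z (w 0))⌋ : ℤ) : ℝ) / M) (V (z (w 0)))
      rw [abs_sub_comm] at h4
      linarith

/-- The error of the path. -/
noncomputable def dl (C₁ K η : ℝ) (M : ℕ) : ℝ :=
  K / M + C₁ * K * (6 / η ^ 3 * (1 / M + K / M))

/-- **The path at a star.** -/
theorem path_star (hC : CloH p L z y t D X x V P N M K e η c) (hM : 1 ≤ M) {x0 : Λ → V2}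
    (h0 : ∀ ω, 0 < p ω → Bx (K / M) (x (z ω) - x0 (L ω) - ((t ω : ℝ) / M) • X (D (L ω))))
    (hη : 0 < η) (hη1 : η ≤ 1) {C₁ : ℝ} (hC₁ : ∀ (P : Polynomial ℝ) (U : ℝ), P.natDegree ≤ N →
      (∀ s : ℝ, |s| ≤ 2 → |P.eval s| ≤ U) → ∀ s s' : ℝ, |s| ≤ 2 → |s'| ≤ 2 →
      |P.eval s - P.eval s'| ≤ C₁ * U * |s - s'|) (hC0 : 0 ≤ C₁) (hK : 0 ≤ K)
    (hsm : 6 / η ^ 3 * (1 / M + K / M) ≤ 1) (a : Fin 2) :
    Pb (cpn p z 1) (fun w => ¬ |V (z (w 0)) - (bp X η P x0 a (dd L D w) (L (w a))).eval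
      ((ro M L z D X x η w a : ℝ) / M)| ≤ dl C₁ K η M) ≤ 4 * c := by
  have p0 := hC.law.nonneg
  have m0 := cpn_nonneg p0 z 1
  have hpos := cpn_pos p0 z 1
  have h1 : Pb (cpn p z 1) (fun w => ¬ |V (z (w a)) - (P (L (w a))).eval ((t (w a) : ℝ) / M)| ≤
      K / M) ≤ c := by
    rw [Pool.MIC.Marg.Pb_eq (cpn_marg p0 z 1 a)
      (fun ω => ¬ |V (z ω) - (P (L ω)).eval ((t ω : ℝ) / M)| ≤ K / M)]
    exact hC.path
  have h2 := gp_star hC hη hη1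
  refine (Pb_le2 m0 (B := fun w => ¬ Gp X η (dd L D w)) (C := fun w =>
    ¬ |V (z (w a)) - (P (L (w a))).eval ((t (w a) : ℝ) / M)| ≤ K / M)
    fun w hw hB hA hn => ?_).trans (by linarith)
  rw [not_not] at hB hA
  obtain ⟨a1, a2⟩ := hpos w hw
  refine hn ?_
  have h3 := bp_close hC hM h0 hη hC₁ hC0 hB (a1 a) (a := a) rfl
    (s := (ro M L z D X x η w a : ℝ) / M) (τ := 1 / M) hK (by
      rw [show z (w a) = z (w 0) from a2 a]
      exact pt_near hM (cr X η (dd L D w) (x (z (w 0)))) a) hsm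
  have hz : z (w a) = z (w 0) := a2 a
  rw [hz] at hA
  unfold dl
  obtain ⟨A1, A2⟩ := abs_le.1 hA
  obtain ⟨B1, B2⟩ := abs_le.1 h3
  exact abs_le.2 ⟨by linarith, by linarith⟩

/-- **The third level.** -/
theorem lvl3 (hC : CloH p L z y t D X x V P N M K e η c) (hM : 1 ≤ M) {x0 : Λ → V2}
    (h0 : ∀ ω, 0 < p ω → Bx (K / M) (x (z ω) - x0 (L ω) - ((t ω : ℝ) / M) • X (D (L ω))))
    (hη : 0 < η) (hη1 : η ≤ 1) {C₁ : ℝ} (hC₁ : ∀ (P : Polynomial ℝ) (U : ℝ), P.natDegree ≤ N →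
      (∀ s : ℝ, |s| ≤ 2 → |P.eval s| ≤ U) → ∀ s s' : ℝ, |s| ≤ 2 → |s'| ≤ 2 →
      |P.eval s - P.eval s'| ≤ C₁ * U * |s - s'|) (hC0 : 0 ≤ C₁) (hK : 1 ≤ K)
    (hsm : 6 / η ^ 3 * (1 / M + K / M) ≤ 1) (hc : 0 ≤ c) (he : 0 ≤ e) {ρ : ℝ} (hρ : 0 < ρ)
    (hρ1 : ρ < 1) (hρM : 1 ≤ ρ * M) :
    ∃ D3 : Lv (cpn p z 1) (w0 L y D) (ro M L z D X x η) (fun w => V (z (w 0))) M N ∅
      (TT N * (TT N * (TT N * (4 * (e + ell K η c M)))))
      (3 * Lg N ρ * (3 * Lg N ρ * (3 * Lg N ρ * dl C₁ K η M)))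
      (cc N ρ (TT N * (TT N * (4 * (e + ell K η c M)))) (cc N ρ (TT N * (4 * (e + ell K η c M)))
        (cc N ρ (4 * (e + ell K η c M)) (4 * c))))
      (Lg N ρ * (Lg N ρ * (Lg N ρ * (K + 1)))),
      Pb D3.q (fun ω => ¬ ∀ s : ℝ, |s| ≤ 3 →
        |(bp X η P x0 1 (dd L D (D3.σ ω)) (L (D3.σ ω 1))).eval s - eval (Function.update
          (pt M (ro M L z D X x η (D3.σ ω))) 1 s) (D3.F (D3.W ω) (D3.g ω))| ≤
            3 * Lg N ρ * (3 * Lg N ρ * (3 * Lg N ρ * dl C₁ K η M))) ≤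
      cc N ρ (TT N * (TT N * (4 * (e + ell K η c M)))) (cc N ρ (TT N * (4 * (e + ell K η c M)))
        (cc N ρ (4 * (e + ell K η c M)) (4 * c))) := by
  classical
  have p0 := hC.law.nonneg
  have m0 := cpn_nonneg p0 z 1
  have hlaw := cpn_law hC.law z 1
  have hpos := cpn_pos p0 z 1
  have hM0 : (0 : ℝ) < M := by exact_mod_cast hM
  have h3 : (0 : ℝ) < η ^ 3 := by positivity
  have hell := ell_nonneg (M := M) hM hη hη1 hK hc
  have hK0 : 0 ≤ K := by linarith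
  have hl : 0 < Real.log (1 / ρ) := Real.log_pos (by rw [lt_div_iff₀ hρ]; linarith)
  have hl2 := Real.log_nonneg (show (1 : ℝ) ≤ 2 by norm_num)
  have hT1 : 1 ≤ TT N := by
    unfold TT
    exact_mod_cast (by omega : 1 ≤ 2 * (N + 1) + 1)
  have hLg1 : 1 ≤ Lg N ρ := by
    unfold Lg
    have h1 : (1 : ℝ) ≤ 8 / ρ := by
      rw [le_div_iff₀ hρ]
      linarith
    have h2 : (1 : ℝ) ≤ (8 / ρ) ^ N := one_le_pow₀ h1
    have h3 : (0 : ℝ) ≤ N := Nat.cast_nonneg N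
    nlinarith
  obtain ⟨E0, hE0⟩ : ∃ E0, E0 = 4 * (e + ell K η c M) := ⟨_, rfl⟩
  have hE0p : 0 ≤ E0 := by rw [hE0]; positivity
  have hE1p : 0 ≤ TT N * E0 := by positivity
  have hE2p : 0 ≤ TT N * (TT N * E0) := by positivity
  have hE01 : E0 ≤ TT N * E0 := le_mul_of_one_le_left hE0p hT1
  have hE12 : TT N * E0 ≤ TT N * (TT N * E0) := le_mul_of_one_le_left hE1p hT1
  have hδp : 0 ≤ dl C₁ K η M := by unfold dl; positivity
  have hδM : 1 / (M : ℝ) ≤ dl C₁ K η M := by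
    unfold dl
    have h1 : 1 / (M : ℝ) ≤ K / M := div_le_div_of_nonneg_right hK hM0.le
    have h2 : 0 ≤ C₁ * K * (6 / η ^ 3 * (1 / M + K / M)) := by positivity
    linarith
  -- the full coordinates
  have hC1 : ∀ (a : Fin 2) (E : ℝ), E0 ≤ E → Real.log (2 * M + 1) - E ≤
      CH (cpn p z 1) (fun w => ro M L z D X x η w a)
        (fun w => ((rs (univ.erase a) (ro M L z D X x η w), L (w a)), w0 L y D w)) := by
    intro a E hE
    have h1 := c1_star hC hM hη hη1 hK0 hc a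
    have h2 : 3 * e + 4 * (Real.log 2 + Real.log (57 * (K + 1) / η ^ 3)) +
        3 * c * Real.log (2 * M + 1) ≤ E0 := by
      have h4 : 0 ≤ 3 * c * Real.log (2 * M + 1) := by
        have hM1 : (1 : ℝ) ≤ M := by exact_mod_cast hM
        have : 0 ≤ Real.log (2 * M + 1) := Real.log_nonneg (by linarith)
        positivity
      rw [hE0]
      unfold ell
      linarith
    linarith
  have hmono : ∀ (a : Fin 2) (δ c' : ℝ), dl C₁ K η M ≤ δ → 4 * c ≤ c' →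
      Pb (cpn p z 1) (fun w => ¬ |V (z (w 0)) - (bp X η P x0 a (dd L D w) (L (w a))).eval
        ((ro M L z D X x η w a : ℝ) / M)| ≤ δ) ≤ c' := by
    intro a δ c' hδ hc'
    have h1 := path_star hC hM h0 hη hη1 hC₁ hC0 hK0 hsm a
    exact (Pb_mono m0 fun w _ hn h => hn (h.trans hδ)).trans (h1.trans hc')
  have hccm : ∀ (E c' : ℝ), 0 ≤ E → 0 ≤ c' → c' ≤ cc N ρ E c' := by
    intro E c' hE hc'
    unfold cc
    have h1 : 0 ≤ (N + 1 : ℝ) ^ 2 * ((2 * E + Real.log 2) / Real.log (1 / ρ)) := by positivity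
    have h2 : (0 : ℝ) ≤ N := Nat.cast_nonneg N
    nlinarith
  have hB : ∀ a : Fin 2, ∀ w w', 0 < cpn p z 1 w → 0 < cpn p z 1 w' → L (w a) = L (w' a) →
      w0 L y D w = w0 L y D w' → bp X η P x0 a (dd L D w) (L (w a)) =
        bp X η P x0 a (dd L D w') (L (w' a)) := by
    intro a w w' _ _ h1 h2
    have h4 : dd L D w = dd L D w' := (Prod.ext_iff.1 h2).2
    rw [h1, h4]
  have hr : ∀ w, 0 < cpn p z 1 w → ∀ i, |ro M L z D X x η w i| ≤ (M : ℤ) :=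
    fun w _ i => ro_le hC hη w i
  rw [← hE0]
  obtain ⟨D0⟩ := lvl0 hC hM hη hη1 hK hc he hδM (c₀ := 4 * c) (by linarith)
  rw [← hE0] at D0
  obtain ⟨D1, -⟩ := step (a := 0) (S := insert 1 ∅) (by simp) D0 hlaw hM hr
    (fun w => L (w 0)) (fun w => bp X η P x0 0 (dd L D w) (L (w 0))) (hB 0)
    (fun w => bp_deg hC x0 0 _ _) hE0p (hC1 0 E0 le_rfl) (hmono 0 _ _ le_rfl le_rfl) hρ hρ1 hρM
  have hδ1 : dl C₁ K η M ≤ 3 * Lg N ρ * dl C₁ K η M :=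
    le_mul_of_one_le_left hδp (by linarith)
  have hδ1p : 0 ≤ 3 * Lg N ρ * dl C₁ K η M := hδp.trans hδ1
  have hc1 := hccm E0 (4 * c) hE0p (by linarith)
  obtain ⟨D2, h2p⟩ := step (a := 1) (S := ∅) (by simp) (E := TT N * E0)
    (δ := 3 * Lg N ρ * dl C₁ K η M) (c := cc N ρ E0 (4 * c)) (U := Lg N ρ * (K + 1)) D1 hlaw hM hr
    (fun w => L (w 1)) (fun w => bp X η P x0 1 (dd L D w) (L (w 1))) (hB 1)
    (fun w => bp_deg hC x0 1 _ _) hE1p (hC1 1 _ hE01) (hmono 1 _ _ hδ1 hc1) hρ hρ1 hρM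
  have hδ2 : 3 * Lg N ρ * dl C₁ K η M ≤ 3 * Lg N ρ * (3 * Lg N ρ * dl C₁ K η M) :=
    le_mul_of_one_le_left hδ1p (by linarith)
  have hδ2p : 0 ≤ 3 * Lg N ρ * (3 * Lg N ρ * dl C₁ K η M) := hδ1p.trans hδ2
  have hδ3 : 3 * Lg N ρ * (3 * Lg N ρ * dl C₁ K η M) ≤
      3 * Lg N ρ * (3 * Lg N ρ * (3 * Lg N ρ * dl C₁ K η M)) :=
    le_mul_of_one_le_left hδ2p (by linarith)
  have hc2 := hccm (TT N * E0) (cc N ρ E0 (4 * c)) hE1p (by linarith)
  have hc3 := hccm (TT N * (TT N * E0)) (cc N ρ (TT N * E0) (cc N ρ E0 (4 * c))) hE2p (by linarith)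
  have hE23 : TT N * (TT N * E0) ≤ TT N * (TT N * (TT N * E0)) := le_mul_of_one_le_left hE2p hT1
  have hU2 : Lg N ρ * (Lg N ρ * (K + 1)) ≤ Lg N ρ * (Lg N ρ * (Lg N ρ * (K + 1))) :=
    le_mul_of_one_le_left (by positivity) hLg1
  refine ⟨Lv.wk D2 hE23 hδ3 hc3 hU2, ?_⟩
  refine (Pb_mono D2.law.nonneg fun w _ hn h => hn fun s hs => (h s hs).trans ?_).trans
    (h2p.trans hc3)
  have h5 : 2 * ((N + 1 : ℝ) * (8 / ρ) ^ N) ≤ 3 * Lg N ρ := by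
    unfold Lg at hLg1 ⊢
    linarith
  exact (mul_le_mul_of_nonneg_right h5 hδ1p).trans hδ3

end

end Pool.CL2
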