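import Pool.Agent.H6.STB.Cpy
import Pool.Agent.H95.CL2.Lag

/-!
# The steps of the interpolation

A level `Lv`: a law with a base sample, a record `W` which is nearly independent of the base sample
given the first record, data `g` which are few given the record and the coordinates in `S`, and a
polynomial in the other coordinates which is a function of `(W, g)` and gives the value of the base
sample. `step`: the level for `S` from the level for `insert a S`.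
-/

set_option autoImplicit false

namespace Pool.CL2

open Finset Real MvPolynomial
open Pool.Agent.H49.Ent Pool.Agent.H32.Dense Pool.STK
open Pool.BFL (Pb)
open Pool.K2S (cpn)
open Pool.CLU (cpn_law cpn_pos cpn_marg cpn_nonneg)
open Pool.STB (Pb_mono Pb_or Pb_le2)
open Pool.STB6 (sep_all few_cp node)

/-- The coordinates in `S`. -/
def rs (S : Finset (Fin 2)) (r : Fin 2 → ℤ) : Fin 2 → ℤ := fun a => if a ∈ S then r a else 0

/-- The point with the coordinates `r / M`. -/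
noncomputable def pt (M : ℕ) (r : Fin 2 → ℤ) : V2 := fun i => (r i : ℝ) / M

/-- **A level of the interpolation.** -/
structure Lv {Ω₀ 𝒲₀ : Type} [Fintype Ω₀] (q₀ : Ω₀ → ℝ) (W₀ : Ω₀ → 𝒲₀) (r : Ω₀ → Fin 2 → ℤ)
    (v : Ω₀ → ℝ) (M K : ℕ) (S : Finset (Fin 2)) (E δ c U : ℝ) where
  Ω : Type
  ft : Fintype Ω
  q : Ω → ℝ
  law : IsLaw q
  σ : Ω → Ω₀
  mg : Marg q q₀ σ
  𝒲 : Type
  W : Ω → 𝒲
  G : Type
  g : Ω → G
  F : 𝒲 → G → P2
  w0 : ∃ φ : 𝒲 → 𝒲₀, ∀ ω, φ (W ω) = W₀ (σ ω)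
  few : CH q g (fun ω => (W ω, rs S (r (σ ω)))) ≤ E
  full : ∀ (T T' : Type) (f : Ω₀ → T) (f' : Ω₀ → T'),
    CH q₀ f (fun ω => (f' ω, W₀ ω)) - E ≤ CH q (fun ω => f (σ ω)) (fun ω => (f' (σ ω), W ω))
  deg : ∀ w h i, (F w h).degreeOf i ≤ K
  deg0 : ∀ w h, ∀ i ∈ S, (F w h).degreeOf i = 0
  val : Pb q (fun ω => ¬ (|v (σ ω) - eval (pt M (r (σ ω))) (F (W ω) (g ω))| ≤ δ ∧
    ∀ s : V2, Bx 3 s → |eval s (F (W ω) (g ω))| ≤ U)) ≤ c

attribute [instance] Lv.ft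

section

variable {Ω₀ 𝒲₀ Λ : Type} [Fintype Ω₀] {q₀ : Ω₀ → ℝ} {W₀ : Ω₀ → 𝒲₀} {r : Ω₀ → Fin 2 → ℤ}
  {v : Ω₀ → ℝ} {M K : ℕ}

/-- The bad event of the copies. -/
theorem Pb_cps {Ω κt : Type} [Fintype Ω] {q : Ω → ℝ} (hq : IsLaw q) (κ : Ω → κt) (n : ℕ)
    (A : Ω → Prop) {c : ℝ} (hA : Pb q A ≤ c) :
    Pb (cpn q κ n) (fun u => ∃ i, A (u i)) ≤ (n + 1) * c := by
  refine (Pool.MIC.Pb_exists_le (cpn_nonneg hq.nonneg κ n) (fun i u => A (u i))).trans ?_
  have h : ∀ i : Fin (n + 1), Pb (cpn q κ n) (fun u => A (u i)) ≤ c := fun i => by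
    rw [Pool.MIC.Marg.Pb_eq (cpn_marg hq.nonneg κ n i) A]
    exact hA
  refine (Finset.sum_le_sum fun i _ => h i).trans (le_of_eq ?_)
  rw [Finset.sum_const, Finset.card_univ, Fintype.card_fin, nsmul_eq_mul]
  push_cast
  ring

/-- **The step.** -/
theorem step {a : Fin 2} {S : Finset (Fin 2)} (ha : a ∉ S) {E δ c U : ℝ}
    (D : Lv q₀ W₀ r v M K (insert a S) E δ c U) (hq₀ : IsLaw q₀) (hM : 1 ≤ M)
    (hr : ∀ ω, 0 < q₀ ω → ∀ i, |r ω i| ≤ (M : ℤ)) (lam : Ω₀ → Λ) (Bp : Ω₀ → Polynomial ℝ)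
    (hB : ∀ ω ω', 0 < q₀ ω → 0 < q₀ ω' → lam ω = lam ω' → W₀ ω = W₀ ω' → Bp ω = Bp ω')
    (hBd : ∀ ω, (Bp ω).natDegree ≤ K) (hE : 0 ≤ E)
    (hC1 : Real.log (2 * M + 1) - E ≤
      CH q₀ (fun ω => r ω a) (fun ω => ((rs (univ.erase a) (r ω), lam ω), W₀ ω)))
    (hpath : Pb q₀ (fun ω => ¬ |v ω - (Bp ω).eval ((r ω a : ℝ) / M)| ≤ δ) ≤ c)
    {ρ : ℝ} (hρ : 0 < ρ) (hρ1 : ρ < 1) (hρM : 1 ≤ ρ * M) :
    ∃ D' : Lv q₀ W₀ r v M K S (((2 * (K + 1) + 1 : ℕ) : ℝ) * E)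
      (3 * ((K + 1) * (8 / ρ) ^ K) * δ)
      ((K + 2) * (2 * c) + (K + 1) ^ 2 * ((2 * E + Real.log 2) / Real.log (1 / ρ)))
      ((K + 1) * (8 / ρ) ^ K * U),
      Pb D'.q (fun ω => ¬ ∀ s : ℝ, |s| ≤ 3 →
        |(Bp (D'.σ ω)).eval s - eval (Function.update (pt M (r (D'.σ ω))) a s)
          (D'.F (D'.W ω) (D'.g ω))| ≤ 2 * ((K + 1) * (8 / ρ) ^ K) * δ) ≤
      (K + 2) * (2 * c) + (K + 1) ^ 2 * ((2 * E + Real.log 2) / Real.log (1 / ρ)) := by
  classical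
  have dq := D.law
  have d0 := dq.nonneg
  obtain ⟨κ, hκ⟩ : ∃ κ : D.Ω → D.𝒲 × ((Fin 2 → ℤ) × Λ), κ = fun ω =>
    (D.W ω, (rs (univ.erase a) (r (D.σ ω)), lam (D.σ ω))) := ⟨_, rfl⟩
  obtain ⟨b, hb⟩ : ∃ b : D.Ω → ℤ, b = fun ω => r (D.σ ω) a := ⟨_, rfl⟩
  have hκW : Det D.q κ D.W := by
    intro ω ω' _ _ h
    rw [hκ] at h
    exact (Prod.ext_iff.1 h).1
  have hκr : ∀ ω ω', κ ω = κ ω' → ∀ i, i ≠ a → r (D.σ ω) i = r (D.σ ω') i := by
    intro ω ω' h i hi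
    rw [hκ] at h
    have h1 := congrFun (Prod.ext_iff.1 (Prod.ext_iff.1 h).2).1 i
    have h2 : i ∈ univ.erase a := Finset.mem_erase.2 ⟨hi, Finset.mem_univ i⟩
    simp only [rs, if_pos h2] at h1
    exact h1
  have hκl : ∀ ω ω', κ ω = κ ω' → lam (D.σ ω) = lam (D.σ ω') := by
    intro ω ω' h
    rw [hκ] at h
    exact (Prod.ext_iff.1 (Prod.ext_iff.1 h).2).2
  obtain ⟨φ, hφ⟩ := D.w0
  have hbM : ∀ ω, 0 < D.q ω → |b ω| ≤ (M : ℤ) := by
    intro ω hω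
    rw [hb]
    exact hr _ (D.mg.pos d0 hω) a
  -- the own coordinate is full
  have hfull : Real.log (2 * M + 1) - 2 * E ≤ CH D.q b κ := by
    have h1 := D.full _ _ (fun ω => r ω a) (fun ω => (rs (univ.erase a) (r ω), lam ω))
    have h2 : CH D.q (fun ω => r (D.σ ω) a) (fun ω => ((rs (univ.erase a) (r (D.σ ω)),
        lam (D.σ ω)), D.W ω)) = CH D.q b κ := by
      rw [hb, hκ]
      refine CH_congr d0 (fun _ _ _ _ h => (Prod.ext_iff.1 h).1) (fun _ _ _ _ h =>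
        (Prod.ext_iff.1 h).1) (fun _ _ _ _ h => Prod.ext (Prod.ext_iff.1 h).2
          (Prod.ext_iff.1 h).1) (fun _ _ _ _ h => Prod.ext (Prod.ext_iff.1 h).2
          (Prod.ext_iff.1 h).1)
    linarith
  have hbW : CH D.q b D.W ≤ Real.log (2 * M + 1) := by
    have h3 := CH_le_card d0 dq.sum_one b D.W (fun _ => Finset.Icc (-(M : ℤ)) M)
      (fun ω hω => by
        rw [Finset.mem_Icc, ← abs_le]
        exact hbM ω hω)
    have hc : (Finset.Icc (-(M : ℤ)) M).card = 2 * M + 1 := by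
      rw [Int.card_Icc]
      omega
    rw [Ex_const dq.sum_one, hc] at h3
    push_cast at h3
    exact h3
  have he : CH D.q b D.W - CH D.q b κ ≤ 2 * E := by linarith
  have hpos := cpn_pos d0 κ (K + 1)
  have m0 := cpn_nonneg d0 κ (K + 1)
  -- the events
  obtain ⟨Ab, hAb⟩ : ∃ Ab : D.Ω → Prop, Ab = fun ω =>
      ¬ |v (D.σ ω) - (Bp (D.σ ω)).eval ((r (D.σ ω) a : ℝ) / M)| ≤ δ := ⟨_, rfl⟩
  obtain ⟨Gb, hGb⟩ : ∃ Gb : D.Ω → Prop, Gb = fun ω =>
      ¬ (|v (D.σ ω) - eval (pt M (r (D.σ ω))) (D.F (D.W ω) (D.g ω))| ≤ δ ∧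
    ∀ s : V2, Bx 3 s → |eval s (D.F (D.W ω) (D.g ω))| ≤ U) := ⟨_, rfl⟩
  obtain ⟨Sb, hSb⟩ : ∃ Sb : (Fin (K + 1 + 1) → D.Ω) → Prop, Sb = fun u =>
      ∃ i j : Fin (K + 1), i ≠ j ∧ |(b (u i.succ) : ℝ) - b (u j.succ)| ≤ ρ * M / 2 := ⟨_, rfl⟩
  have pA : Pb (cpn D.q κ (K + 1)) (fun u => ∃ i, Ab (u i)) ≤ (K + 2) * c := by
    have h1 : Pb D.q Ab ≤ c := by
      rw [hAb]
      rw [Pool.MIC.Marg.Pb_eq D.mg (fun ω => ¬ |v ω - (Bp ω).eval ((r ω a : ℝ) / M)| ≤ δ)]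
      exact hpath
    refine (Pb_cps dq κ (K + 1) Ab h1).trans (le_of_eq ?_)
    push_cast
    ring
  have pG : Pb (cpn D.q κ (K + 1)) (fun u => ∃ i, Gb (u i)) ≤ (K + 2) * c := by
    have h1 : Pb D.q Gb ≤ c := by
      rw [hGb]
      exact D.val
    refine (Pb_cps dq κ (K + 1) Gb h1).trans (le_of_eq ?_)
    push_cast
    ring
  have pS : Pb (cpn D.q κ (K + 1)) Sb ≤
      (K + 1) ^ 2 * ((2 * E + Real.log 2) / Real.log (1 / ρ)) := by
    have h1 := sep_all dq κ b hbM hfull hρ hρ1 (r := ρ * M / 2) (by positivity) (by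
      have : ρ * (2 * (M : ℝ) + 1) = 2 * (ρ * M) + ρ := by ring
      rw [this]
      linarith) (K + 1)
    rw [hSb]
    refine h1.trans (le_of_eq ?_)
    push_cast
    ring
  have pAll : Pb (cpn D.q κ (K + 1)) (fun u => ((∃ i, Ab (u i)) ∨ (∃ i, Gb (u i))) ∨ Sb u) ≤
      (K + 2) * (2 * c) + (K + 1) ^ 2 * ((2 * E + Real.log 2) / Real.log (1 / ρ)) := by
    have h1 := Pb_or m0 (fun u => (∃ i, Ab (u i)) ∨ (∃ i, Gb (u i))) Sb
    have h2 := Pb_or m0 (fun u => ∃ i, Ab (u i)) (fun u => ∃ i, Gb (u i))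
    linarith
  -- the nodes
  have hsep : ∀ u, ¬ Sb u → ∀ i j : Fin (K + 1), i ≠ j →
      ρ * M / 2 < |((b (u i.succ) : ℤ) : ℝ) - b (u j.succ)| := by
    intro u hu i j hij
    by_contra hc
    rw [hSb] at hu
    exact hu ⟨i, j, hij, not_lt.1 hc⟩
  -- the path
  have key : ∀ u, 0 < cpn D.q κ (K + 1) u → ¬ (((∃ i, Ab (u i)) ∨ (∃ i, Gb (u i))) ∨ Sb u) →
      ∀ s : ℝ, |s| ≤ 3 → |(Bp (D.σ (u 0))).eval s -
        eval (Function.update (pt M (r (D.σ (u 0)))) a s)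
          (stepF M a D.F (D.W (u 0), fun i : Fin (K + 1) => b (u i.succ))
            (fun i => D.g (u i.succ)))| ≤ 2 * ((K + 1) * (8 / ρ) ^ K) * δ := by
    intro u hu hn s hs
    rw [not_or, not_or] at hn
    obtain ⟨⟨hnA, hnG⟩, hnS⟩ := hn
    obtain ⟨hu1, hu2⟩ := hpos u hu
    have hBe : ∀ i, Bp (D.σ (u i)) = Bp (D.σ (u 0)) := fun i =>
      hB _ _ (D.mg.pos d0 (hu1 i)) (D.mg.pos d0 (hu1 0)) (hκl _ _ (hu2 i)) (by
        rw [← hφ, ← hφ, hκW _ _ (hu1 i) (hu1 0) (hu2 i)])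
    have h1 := stepF_path hM a D.F (D.W (u 0)) (fun i : Fin (K + 1) => b (u i.succ))
      (fun i => D.g (u i.succ)) (Bp (D.σ (u 0))) (hBd _)
      (fun i => hbM _ (hu1 _)) hρ (hsep u hnS) (fun i => pt M (r (D.σ (u i.succ))))
      (pt M (r (D.σ (u 0)))) (fun i => by
        rw [hb]
        rfl) (fun i c hc => by
        show ((r (D.σ (u i.succ)) c : ℤ) : ℝ) / M = _
        rw [hκr _ _ (hu2 i.succ) c hc]
        rfl) (fun i => D.deg0 _ _ a (Finset.mem_insert_self a S)) (δ := 2 * δ) (fun i => by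
        have hA : |v (D.σ (u i.succ)) - (Bp (D.σ (u i.succ))).eval
            ((r (D.σ (u i.succ)) a : ℝ) / M)| ≤ δ := by
          by_contra hc
          exact hnA ⟨i.succ, by rw [hAb]; exact hc⟩
        have hG : |v (D.σ (u i.succ)) - eval (pt M (r (D.σ (u i.succ))))
            (D.F (D.W (u i.succ)) (D.g (u i.succ)))| ≤ δ := by
          by_contra hc
          exact hnG ⟨i.succ, by rw [hGb]; exact fun h => hc h.1⟩
        have hWe : D.W (u i.succ) = D.W (u 0) := hκW _ _ (hu1 _) (hu1 0) (hu2 _)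
        rw [hBe] at hA
        rw [hWe] at hG
        have hbb : b (u i.succ) = r (D.σ (u i.succ)) a := by rw [hb]
        rw [hbb]
        obtain ⟨A1, A2⟩ := abs_le.1 hA
        obtain ⟨B1, B2⟩ := abs_le.1 hG
        exact abs_le.2 ⟨by linarith, by linarith⟩) hs
    refine h1.trans (le_of_eq ?_)
    ring
  have hLag : (1 : ℝ) ≤ (K + 1) * (8 / ρ) ^ K := by
    have h1 : (1 : ℝ) ≤ 8 / ρ := by
      rw [le_div_iff₀ hρ]
      linarith
    have h2 : (1 : ℝ) ≤ (8 / ρ) ^ K := one_le_pow₀ h1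
    have h3 : (0 : ℝ) ≤ K := Nat.cast_nonneg K
    nlinarith
  refine ⟨{
    Ω := Fin (K + 1 + 1) → D.Ω
    ft := inferInstance
    q := cpn D.q κ (K + 1)
    law := cpn_law dq κ (K + 1)
    σ := fun u => D.σ (u 0)
    mg := (cpn_marg d0 κ (K + 1) 0).comp D.mg
    𝒲 := D.𝒲 × (Fin (K + 1) → ℤ)
    W := fun u => (D.W (u 0), fun i : Fin (K + 1) => b (u i.succ))
    G := Fin (K + 1) → D.G
    g := fun u => fun i => D.g (u i.succ)
    F := stepF M a D.F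
    w0 := ⟨fun w => φ w.1, fun u => hφ (u 0)⟩
    few := ?_
    full := ?_
    deg := ?_
    deg0 := ?_
    val := ?_ }, ?_⟩
  · refine (few_cp dq κ D.g (fun ω => (D.W ω, rs (insert a S) (r (D.σ ω)))) (K + 1)
      ?_).trans ?_
    · intro i u u' hu hu' h
      obtain ⟨a1, a2⟩ := hpos u hu
      obtain ⟨b1, b2⟩ := hpos u' hu'
      obtain ⟨h1, h2⟩ := Prod.ext_iff.1 h
      obtain ⟨h3, h4⟩ := Prod.ext_iff.1 h1
      have h3' : D.W (u 0) = D.W (u' 0) := h3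
      refine Prod.ext ?_ (funext fun j => ?_)
      · show D.W (u i.succ) = D.W (u' i.succ)
        rw [hκW _ _ (a1 _) (a1 0) (a2 i.succ), hκW _ _ (b1 _) (b1 0) (b2 i.succ), h3']
      · show rs (insert a S) (r (D.σ (u i.succ))) j = rs (insert a S) (r (D.σ (u' i.succ))) j
        unfold rs
        by_cases hj : j ∈ insert a S
        · rw [if_pos hj, if_pos hj]
          by_cases hja : j = a
          · have h5 : b (u i.succ) = b (u' i.succ) := congrFun h4 i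
            rw [hb] at h5
            rw [hja]
            exact h5
          · rw [hκr _ _ (a2 i.succ) j hja, hκr _ _ (b2 i.succ) j hja]
            have h6 : rs S (r (D.σ (u 0))) j = rs S (r (D.σ (u' 0))) j := congrFun h2 j
            have hjS : j ∈ S := (Finset.mem_insert.1 hj).resolve_left hja
            unfold rs at h6
            rw [if_pos hjS, if_pos hjS] at h6
            exact h6
        · rw [if_neg hj, if_neg hj]
    · have h1 := D.few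
      have h2 : ((K + 1 : ℕ) : ℝ) * CH D.q D.g (fun ω => (D.W ω, rs (insert a S) (r (D.σ ω)))) ≤
          ((K + 1 : ℕ) : ℝ) * E := mul_le_mul_of_nonneg_left h1 (Nat.cast_nonneg _)
      refine h2.trans (mul_le_mul_of_nonneg_right ?_ hE)
      exact_mod_cast (by omega : K + 1 ≤ 2 * (K + 1) + 1)
  · intro T T' f f'
    have h1 := node dq κ D.W b (K + 1) hκW he (fun ω => f (D.σ ω)) (fun ω => f' (D.σ ω))
    have h2 := D.full T T' f f'
    refine le_trans ?_ h1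
    push_cast
    linarith
  · intro w h i
    by_cases hi : i = a
    · refine (stepF_deg M a D.F w h i (K := 0) fun j => ?_).trans ?_
      · rw [hi, D.deg0 _ _ a (Finset.mem_insert_self a S)]
      · rw [if_pos hi, add_zero]
    · refine (stepF_deg M a D.F w h i (K := K) fun j => D.deg _ _ i).trans ?_
      rw [if_neg hi, zero_add]
  · intro w h i hi
    have hia : i ≠ a := fun h => ha (h ▸ hi)
    have h1 := stepF_deg M a D.F w h i (K := 0) fun j => by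
      rw [D.deg0 _ _ i (Finset.mem_insert_of_mem hi)]
    rw [if_neg hia] at h1
    omega
  · refine (Pb_mono m0 fun u hu hn => ?_).trans pAll
    by_contra hc
    refine hn ⟨?_, ?_⟩
    · have h1 := key u hu hc
      have hc' := hc
      rw [not_or, not_or] at hc'
      obtain ⟨⟨hnA, hnG⟩, hnS⟩ := hc'
      obtain ⟨hu1, hu2⟩ := hpos u hu
      have hA : |v (D.σ (u 0)) - (Bp (D.σ (u 0))).eval ((r (D.σ (u 0)) a : ℝ) / M)| ≤ δ := by
        by_contra hc2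
        exact hnA ⟨0, by rw [hAb]; exact hc2⟩
      have h3 : |((r (D.σ (u 0)) a : ℤ) : ℝ) / M| ≤ 3 := by
        have h4 := hbM (u 0) (hu1 0)
        rw [hb] at h4
        have hM0 : (0 : ℝ) < M := by exact_mod_cast hM
        rw [abs_div, abs_of_pos hM0, div_le_iff₀ hM0]
        have h5 : |((r (D.σ (u 0)) a : ℤ) : ℝ)| ≤ M := by exact_mod_cast h4
        linarith
      have h2 := h1 _ h3
      have h4 : Function.update (pt M (r (D.σ (u 0)))) a (((r (D.σ (u 0)) a : ℤ) : ℝ) / M) =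
          pt M (r (D.σ (u 0))) := Function.update_eq_self a (pt M (r (D.σ (u 0))))
      rw [h4] at h2
      have hδ0 : 0 ≤ δ := (abs_nonneg _).trans hA
      have h5 : δ ≤ (K + 1) * (8 / ρ) ^ K * δ := le_mul_of_one_le_left hδ0 hLag
      obtain ⟨A1, A2⟩ := abs_le.1 hA
      obtain ⟨B1, B2⟩ := abs_le.1 h2
      show |v (D.σ (u 0)) - _| ≤ _
      exact abs_le.2 ⟨by linarith, by linarith⟩
    · intro s hs
      have hc' := hc
      rw [not_or, not_or] at hc'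
      obtain ⟨⟨hnA, hnG⟩, hnS⟩ := hc'
      obtain ⟨hu1, hu2⟩ := hpos u hu
      refine stepF_bd hM a D.F (D.W (u 0)) (fun i : Fin (K + 1) => b (u i.succ))
        (fun i => D.g (u i.succ)) (fun i => hbM _ (hu1 _)) hρ (hsep u hnS) hs fun i => ?_
      have hWe : D.W (u i.succ) = D.W (u 0) := hκW _ _ (hu1 _) (hu1 0) (hu2 _)
      rw [← hWe]
      by_contra hc2
      refine hnG ⟨i.succ, ?_⟩
      rw [hGb]
      exact fun h => hc2 (h.2 s hs)
  · refine (Pb_mono m0 fun u hu hn => ?_).trans pAll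
    by_contra hc
    exact hn (key u hu hc)

end

end Pool.CL2
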