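import Pool.Agent.H95.CL2.CloS
import Pool.Agent.H95.CL2.Geo
import Pool.Agent.H95.CL2.Stp
import Pool.Agent.H98.STB.Gp
import Pool.Agent.H52.TIE.Few

/-!
# The star of two lines through a record
-/

set_option autoImplicit false

namespace Pool.CL2

open Finset Real MvPolynomial
open Pool.Agent.H49.Ent Pool.Agent.H32.Dense Pool.STK
open Pool.BFL (Pb)
open Pool.K2S (cpn)
open Pool.CLU (cpn_law cpn_pos cpn_marg cpn_nonneg)
open Pool.STB (Pb_mono Pb_or Pb_le2)

section gen

variable {Ω S T U R : Type} [Fintype Ω] {q : Ω → ℝ}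

/-- Information of the side `A` on `F`. -/
theorem mi_le (h0 : ∀ ω, 0 ≤ q ω) (F : Ω → S) (A : Ω → T) (y : Ω → U) (z : Ω → R)
    (hF : Det q z F) (hy : Det q z y) :
    CH q F y - (CH q A y - CH q A z) ≤ CH q F (fun ω => (A ω, y ω)) := by
  have h1 : CH q F y - CH q F (fun ω => (A ω, y ω)) = CH q A y - CH q A (fun ω => (F ω, y ω)) := by
    have c1 := CH_chain h0 F A y
    have c2 := CH_chain h0 A F y
    have c3 : CH q (fun ω => (F ω, A ω)) y = CH q (fun ω => (A ω, F ω)) y :=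
      Pool.MIC.CH_swl h0 _ _ _
    linarith
  have h2 : CH q A z ≤ CH q A (fun ω => (F ω, y ω)) :=
    CH_mono_cond h0 fun ω ω' a b h => Prod.ext (hF _ _ a b h) (hy _ _ a b h)
  linarith

/-- Entropy of an integer which is close to a function of the record. -/
theorem CH_near (hq : IsLaw q) (ξ : Ω → ℤ) (W : Ω → T) (ctr : T → ℝ) (G : Ω → Prop) {A : ℝ}
    (hA : 1 ≤ A) {M : ℕ} (hM : ∀ ω, 0 < q ω → |ξ ω| ≤ (M : ℤ))
    (hG : ∀ ω, 0 < q ω → G ω → |(ξ ω : ℝ) - ctr (W ω)| ≤ A) :
    CH q ξ W ≤ Real.log 2 + Real.log (3 * A) + Pb q (fun ω => ¬ G ω) * Real.log (2 * M + 1) := by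
  have hc : (Finset.Icc (-(M : ℤ)) M).card = 2 * M + 1 := by
    rw [Int.card_Icc]
    omega
  have hA3 : 1 ≤ 3 * A := by linarith
  have h1 := Pool.H52.TIE.CH_le_two hq ξ W G (fun v => Finset.Icc ⌈ctr v - A⌉ ⌊ctr v + A⌋)
    (fun _ => Finset.Icc (-(M : ℤ)) M) (K := ⌊3 * A⌋₊) (N := 2 * M + 1) (fun ω hω h => ?_)
    (fun v => ?_) (fun ω hω => ?_) (fun v => hc.le) (Nat.le_floor (by exact_mod_cast hA3)) (by omega)
  · refine h1.trans ?_
    have h2 : Real.log (⌊3 * A⌋₊ : ℝ) ≤ Real.log (3 * A) := by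
      refine Real.log_le_log ?_ (Nat.floor_le (by linarith))
      exact_mod_cast Nat.floor_pos.2 hA3
    push_cast
    linarith
  · have h2 := abs_le.1 (hG ω hω h)
    rw [Finset.mem_Icc]
    exact ⟨Int.ceil_le.2 (by linarith), Int.le_floor.2 (by linarith)⟩
  · refine Nat.le_floor ?_
    rw [Int.card_Icc]
    have h3 : (⌊ctr v + A⌋ : ℝ) ≤ ctr v + A := Int.floor_le _
    have h4 : ctr v - A ≤ (⌈ctr v - A⌉ : ℝ) := Int.le_ceil _
    rcases le_or_gt (⌊ctr v + A⌋ + 1 - ⌈ctr v - A⌉) 0 with h5 | h5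
    · rw [Int.toNat_eq_zero.2 h5]
      push_cast
      linarith
    · have h6 : (((⌊ctr v + A⌋ + 1 - ⌈ctr v - A⌉).toNat : ℕ) : ℤ) =
          ⌊ctr v + A⌋ + 1 - ⌈ctr v - A⌉ := Int.toNat_of_nonneg h5.le
      have h7 : (((⌊ctr v + A⌋ + 1 - ⌈ctr v - A⌉).toNat : ℕ) : ℝ) =
          (⌊ctr v + A⌋ : ℝ) + 1 - ⌈ctr v - A⌉ := by exact_mod_cast h6
      rw [h7]
      linarith
  · rw [Finset.mem_Icc, ← abs_le]
    exact hM ω hω

end gen

section star

variable {Ω Λ Z Y 𝒟 : Type} [Fintype Ω] {p : Ω → ℝ}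

variable {L : Ω → Λ} {z : Ω → Z} {y : Ω → Y} {t : Ω → ℤ} {D : Λ → 𝒟} {X : 𝒟 → V2} {x : Z → V2}
  {V : Z → ℝ} {P : Λ → Polynomial ℝ} {N M : ℕ} {K e η c : ℝ}

/-- The directions of the star. -/
def dd (L : Ω → Λ) (D : Λ → 𝒟) (w : Fin 2 → Ω) : Fin 2 → 𝒟 := fun a => D (L (w a))

/-- Normalisation of a covector. -/
theorem nrm_cov (h : V2) (hne : h ≠ 0) : ∃ h' : V2, (Bx 1 h' ∧ ∃ i, |h' i| = 1) ∧
    ∀ (x : V2) (j : Fin 2) (η : ℝ), 0 ≤ η → |∑ i, h i * x i| ≤ η * |h j| →
      |∑ i, h' i * x i| ≤ η := by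
  obtain ⟨k, _, hk⟩ := Finset.exists_max_image (univ : Finset (Fin 2)) (fun i => |h i|)
    Finset.univ_nonempty
  have hk' : ∀ i, |h i| ≤ |h k| := fun i => hk i (Finset.mem_univ i)
  have hpos : 0 < |h k| := by
    rcases (abs_nonneg (h k)).eq_or_lt with h0 | h0
    · exfalso
      refine hne (funext fun i => ?_)
      have := hk' i
      rw [← h0] at this
      exact abs_eq_zero.1 (le_antisymm this (abs_nonneg _))
    · exact h0
  refine ⟨fun i => h i / |h k|, ⟨fun i => ?_, k, ?_⟩, fun x j η hη hx => ?_⟩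
  · rw [abs_div, abs_abs]
    exact (div_le_one hpos).2 (hk' i)
  · rw [abs_div, abs_abs, div_self hpos.ne']
  · have e1 : ∑ i, h i / |h k| * x i = (∑ i, h i * x i) / |h k| := by
      rw [Finset.sum_div]
      exact Finset.sum_congr rfl fun i _ => by ring
    rw [e1, abs_div, abs_abs, div_le_iff₀ hpos]
    exact hx.trans (mul_le_mul_of_nonneg_left (hk' j) hη)

/-- The general position of the copy with respect to a covector which is a function of the rest. -/
theorem gp_sel {W : Type} [Fintype W] {q : W → ℝ} (hp : IsLaw p) (hV : IsLaw q) (z : Ω → Z)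
    (zW : W → Z) (hz : ∀ r, law p z r = law q zW r) (Y : Ω → V2) {η c : ℝ} (hη : 0 ≤ η)
    (gp : ∀ H : Z → V2, (∀ r, Bx 1 (H r) ∧ ∃ i, |H r i| = 1) →
      Pb p (fun ω => |∑ i, H (z ω) i * Y ω i| ≤ η) ≤ c) (H : W → V2) :
    Pb (glue p q z zW) (fun w => ∃ j, H w.2 j ≠ 0 ∧ |∑ i, H w.2 i * Y w.1 i| ≤ η * |H w.2 j|) ≤
      c := by
  classical
  refine Pool.STB.avg_all hp hV z zW hz
    (fun ω v => ∃ j, H v j ≠ 0 ∧ |∑ i, H v i * Y ω i| ≤ η * |H v j|) fun β => ?_
  have hN : ∀ v : W, ∃ h' : V2, (Bx 1 h' ∧ ∃ i, |h' i| = 1) ∧ ∀ (x : V2),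
      (∃ j, H v j ≠ 0 ∧ |∑ i, H v i * x i| ≤ η * |H v j|) → |∑ i, h' i * x i| ≤ η := by
    intro v
    by_cases hv : H v = 0
    · refine ⟨fun _ => 1, ⟨fun i => by simp, 0, by simp⟩, fun x hx => ?_⟩
      obtain ⟨j, hj, _⟩ := hx
      exact absurd (by rw [hv]; rfl) hj
    · obtain ⟨h', h1, h2⟩ := nrm_cov (H v) hv
      exact ⟨h', h1, fun x ⟨j, _, hj⟩ => h2 x j η hη hj⟩
  choose N hN1 hN2 using hN
  refine (Pb_mono hp.nonneg fun ω _ hb => ?_).trans (gp (fun r => N (β r)) fun r => hN1 _)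
  exact hN2 _ _ hb

/-- **General position of the star.** -/
theorem gp_star (hC : CloH p L z y t D X x V P N M K e η c) (hη : 0 < η) (hη1 : η ≤ 1) :
    Pb (cpn p z 1) (fun w => ¬ Gp X η (dd L D w)) ≤ 3 * c := by
  classical
  have hp := hC.law
  have h0 := hp.nonneg
  have hc : 0 ≤ c := (Pool.MIC.Pb_nonneg h0 _).trans (hC.gp (fun _ => Pi.single 0 1) fun r =>
    ⟨fun i => by fin_cases i <;> simp, 0, by simp⟩)
  have e1 : Pb (cpn p z 1) (fun w => ¬ Gp X η (dd L D w)) =
      Pb (glue p p z z) (fun w => ¬ Gp X η (fun a => D (L (![w.2, w.1] a)))) := by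
    unfold Pb
    obtain ⟨E, hE⟩ : ∃ E : (Fin 2 → Ω) ≃ Ω × Ω, ∀ v, E v = (v 1, v 0) :=
      ⟨{ toFun := fun v => (v 1, v 0)
         invFun := fun w => ![w.2, w.1]
         left_inv := fun v => by
           funext i
           fin_cases i <;> rfl
         right_inv := fun w => rfl }, fun v => rfl⟩
    refine Fintype.sum_equiv E _ _ fun v => ?_
    rw [hE]
    have h1 : cpn p z 1 v = glue p p z z (v 1, v 0) := by
      unfold cpn glue
      by_cases ha : ∀ i : Fin (1 + 1), z (v i) = z (v 0)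
      · have e1 : z (v 1) = z (v 0) := ha 1
        rw [if_pos ha, if_pos e1, Fin.prod_univ_two, pow_one, e1, mul_comm]
      · rw [if_neg ha]
        by_cases h3 : z (v 1) = z (v 0)
        · exfalso
          refine ha fun i => ?_
          fin_cases i
          · rfl
          · exact h3
        · rw [if_neg h3]
    have h2 : dd L D v = fun a => D (L ((![v 0, v 1] : Fin 2 → Ω) a)) := by
      funext a
      fin_cases a <;> rfl
    rw [h1]
    have h3 : (¬ Gp X η (dd L D v)) = ¬ Gp X η (fun a => D (L ((![v 0, v 1] : Fin 2 → Ω) a))) := by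
      rw [h2]
    exact @if_congr _ _ _ (Classical.propDecidable _) (Classical.propDecidable _) _ _ _ _
      (iff_of_eq h3) rfl rfl
  rw [e1]
  have hG : ∀ w, 0 ≤ glue p p z z w := glue_nonneg h0 h0
  have g1 : Pb (glue p p z z) (fun w => |X (D (L w.2)) 0| ≤ η) ≤ c := by
    have m : Marg (glue p p z z) p (fun w => w.2) := marg_snd h0 fun _ => rfl
    rw [Pool.MIC.Marg.Pb_eq m (fun ω => |X (D (L ω)) 0| ≤ η)]
    have h1 := hC.gp (fun _ => Pi.single 0 1) fun r => ⟨fun i => by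
      fin_cases i <;> simp, 0, by simp⟩
    refine (Pb_mono h0 fun ω _ hω => ?_).trans h1
    rw [Fin.sum_univ_two]
    simpa using hω
  have g2 := gp_sel hp hp z z (fun _ => rfl) (fun ω => X (D (L ω))) hη.le hC.gp
    (fun ω => ![-X (D (L ω)) 1, X (D (L ω)) 0])
  have key := (Pb_mono hG (A := fun w => ¬ Gp X η (fun a => D (L (![w.2, w.1] a))))
    (B := fun w => |X (D (L w.2)) 0| ≤ η ∨ ∃ j, (![-X (D (L w.2)) 1, X (D (L w.2)) 0] : V2) j ≠ 0 ∧
      |∑ i, (![-X (D (L w.2)) 1, X (D (L w.2)) 0] : V2) i * X (D (L w.1)) i| ≤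
        η * |(![-X (D (L w.2)) 1, X (D (L w.2)) 0] : V2) j|) fun w _ h => ?_).trans
    ((Pb_or hG _ _).trans (add_le_add g1 g2))
  · linarith
  · by_contra hcon
    rw [not_or] at hcon
    obtain ⟨h1, h2⟩ := hcon
    rw [not_le] at h1
    refine h ?_
    unfold Gp
    have e2 : (mt fun a => X (D (L ((![w.2, w.1] : Fin 2 → Ω) a)))).det =
        X (D (L w.2)) 0 * X (D (L w.1)) 1 - X (D (L w.1)) 0 * X (D (L w.2)) 1 := by
      rw [Matrix.det_fin_two]
      rfl
    rw [e2]
    have h3 : η * |X (D (L w.2)) 0| <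
        |X (D (L w.2)) 0 * X (D (L w.1)) 1 - X (D (L w.1)) 0 * X (D (L w.2)) 1| := by
      by_contra hc3
      rw [not_lt] at hc3
      refine h2 ⟨1, ?_, ?_⟩
      · intro h4
        have h5 : X (D (L w.2)) 0 = 0 := h4
        rw [h5, abs_zero] at h1
        linarith
      · rw [Fin.sum_univ_two]
        have e3 : (![-X (D (L w.2)) 1, X (D (L w.2)) 0] : V2) 0 * X (D (L w.1)) 0 +
            (![-X (D (L w.2)) 1, X (D (L w.2)) 0] : V2) 1 * X (D (L w.1)) 1 =
            X (D (L w.2)) 0 * X (D (L w.1)) 1 - X (D (L w.1)) 0 * X (D (L w.2)) 1 := by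
          show -X (D (L w.2)) 1 * X (D (L w.1)) 0 + X (D (L w.2)) 0 * X (D (L w.1)) 1 = _
          ring
        rw [e3]
        exact hc3
    have h4 : η * η ≤ η * |X (D (L w.2)) 0| := mul_le_mul_of_nonneg_left h1.le hη.le
    have h5 : η ^ 3 ≤ η * η := by nlinarith [mul_pos hη hη]
    linarith

theorem e_nn (hC : CloH p L z y t D X x V P N M K e η c) : 0 ≤ e := by
  have h1 := hC.free
  have h2 : CH p (fun ω => D (L ω)) z ≤ CH p (fun ω => D (L ω)) y :=
    CH_mono_cond hC.law.nonneg fun ω ω' a b h => hC.yz ω ω' a b h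
  linarith

/-- The directions are nearly independent of the record. -/
theorem D_star (hC : CloH p L z y t D X x V P N M K e η c) :
    CH (cpn p z 1) (dd L D) (fun w => y (w 0)) - CH (cpn p z 1) (dd L D) (fun w => z (w 0)) ≤
      3 * e := by
  have h0 := hC.law.nonneg
  have m0 := cpn_nonneg h0 z 1
  have hpos := cpn_pos h0 z 1
  have h1 : CH (cpn p z 1) (dd L D) (fun w => y (w 0)) ≤ 2 * CH p (fun ω => D (L ω)) y := by
    refine (Pool.H54.QF.CH_pi_le m0 (fun w : Fin 2 → Ω => y (w 0)) 2 (dd L D)).trans ?_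
    have h2 : ∀ i : Fin 2, CH (cpn p z 1) (fun w => dd L D w i) (fun w => y (w 0)) =
        CH p (fun ω => D (L ω)) y := by
      intro i
      exact Pool.H52.TIE.CH_cpn_zero hC.law z 1 i (fun ω => D (L ω)) y
        (fun ω ω' a b h => hC.yz ω ω' a b h)
    rw [Finset.sum_congr rfl fun i _ => h2 i, Finset.sum_const, Finset.card_univ,
      Fintype.card_fin, nsmul_eq_mul]
    push_cast
    exact le_rfl
  have h3 := Pool.TMS.cpn_times hC.law z (fun ω => D (L ω)) 1
  have h4 : CH (cpn p z 1) (dd L D) (fun w => z (w 0)) = 2 * CH p (fun ω => D (L ω)) z := by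
    refine h3.trans ?_
    push_cast
    ring
  have h5 := hC.free
  have h6 := e_nn hC
  linarith

/-- **The record given the directions.** -/
theorem free_star (hC : CloH p L z y t D X x V P N M K e η c) {T : Type} (F : Z → T) :
    CH p (fun ω => F (z ω)) y - 3 * e ≤
      CH (cpn p z 1) (fun w => F (z (w 0))) (fun w => (y (w 0), dd L D w)) := by
  have h0 := hC.law.nonneg
  have m0 := cpn_nonneg h0 z 1
  have hpos := cpn_pos h0 z 1
  have h1 := mi_le m0 (fun w => F (z (w 0))) (dd L D) (fun w => y (w 0)) (fun w => z (w 0))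
    (fun w w' _ _ h => congrArg F h) (fun w w' a b h => hC.yz _ _ ((hpos w a).1 0)
      ((hpos w' b).1 0) h)
  have h2 := D_star hC
  have h3 : CH (cpn p z 1) (fun w => F (z (w 0))) (fun w => y (w 0)) = CH p (fun ω => F (z ω)) y :=
    (cpn_marg h0 z 1 0).CH (fun ω => F (z ω)) y
  have h4 : CH (cpn p z 1) (fun w => F (z (w 0))) (fun w => (dd L D w, y (w 0))) =
      CH (cpn p z 1) (fun w => F (z (w 0))) (fun w => (y (w 0), dd L D w)) :=
    Pool.MIC.CH_swc m0 _ _ _
  linarith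

/-- The directions of the other lines given a sample. -/
theorem D_one (hC : CloH p L z y t D X x V P N M K e η c) (a : Fin 2) :
    CH (cpn p z 1) (dd L D) (fun w => L (w a)) - CH (cpn p z 1) (dd L D) (fun w => w a) ≤
      2 * e := by
  classical
  have h0 := hC.law.nonneg
  have m0 := cpn_nonneg h0 z 1
  have hpos := cpn_pos h0 z 1
  obtain ⟨X', hX'⟩ : ∃ X' : Fin 2 → Ω → Ω ⊕ (𝒟 × Z), X' = fun i ω =>
    if i = a then Sum.inl ω else Sum.inr (D (L ω), z ω) := ⟨_, rfl⟩
  have Xa : ∀ ω, X' a ω = Sum.inl ω := fun ω => by rw [hX']; exact if_pos rfl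
  have Xn : ∀ i, i ≠ a → ∀ ω, X' i ω = Sum.inr (D (L ω), z ω) := fun i hi ω => by
    rw [hX']; exact if_neg hi
  have hdet : ∀ i, Det p (X' i) z := by
    intro i ω ω' _ _ h
    by_cases hi : i = a
    · rw [hi, Xa, Xa] at h
      rw [Sum.inl.inj h]
    · rw [Xn i hi, Xn i hi] at h
      exact (Prod.ext_iff.1 (Sum.inr.inj h)).2
  have h1 := Pool.TIE38.H_cpn' h0 z 1 X' hdet
  have hsum : ∑ i, H p (X' i) = H p (fun ω => ω) + 1 * H p (fun ω => (D (L ω), z ω)) := by
    have e1 : H p (X' a) = H p (fun ω => ω) := H_congr h0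
      (fun ω ω' _ _ h => by
        show X' a ω = X' a ω'
        rw [Xa, Xa]
        exact congrArg Sum.inl h)
      (fun ω ω' _ _ h => by
        rw [Xa, Xa] at h
        exact Sum.inl.inj h)
    have e2 : ∀ i, i ≠ a → H p (X' i) = H p (fun ω => (D (L ω), z ω)) := fun i hi => H_congr h0
      (fun ω ω' _ _ h => by
        show X' i ω = X' i ω'
        rw [Xn i hi, Xn i hi]
        exact congrArg Sum.inr h)
      (fun ω ω' _ _ h => by
        rw [Xn i hi, Xn i hi] at h
        exact Sum.inr.inj h)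
    rw [← Finset.add_sum_erase _ _ (Finset.mem_univ a), e1]
    congr 1
    rw [Finset.sum_congr rfl fun i hi => e2 i (Finset.ne_of_mem_erase hi), Finset.sum_const,
      Finset.card_erase_of_mem (Finset.mem_univ a), Finset.card_univ, Fintype.card_fin,
      nsmul_eq_mul]
    norm_num
  -- the entropy of the sample with the directions
  have h2 : H (cpn p z 1) (fun w => fun i => X' i (w i)) =
      H (cpn p z 1) (fun w => (dd L D w, w a)) := by
    refine H_congr m0 (fun w w' _ _ h => ?_) (fun w w' hw hw' h => ?_)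
    · obtain ⟨g1, g2⟩ := Prod.ext_iff.1 h
      have g2' : w a = w' a := g2
      funext i
      by_cases hi : i = a
      · rw [hi]
        show X' a (w a) = X' a (w' a)
        rw [g2']
      · show X' i (w i) = X' i (w' i)
        rw [Xn i hi, Xn i hi]
        refine congrArg Sum.inr (Prod.ext (congrFun g1 i) ?_)
        show z (w i) = z (w' i)
        rename_i hw hw'
        rw [(hpos w hw).2 i, (hpos w' hw').2 i, ← (hpos w hw).2 a, ← (hpos w' hw').2 a, g2']
    · have ga := congrFun h a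
      simp only [Xa] at ga
      have ga' := Sum.inl.inj ga
      refine Prod.ext (funext fun i => ?_) ga'
      by_cases hi : i = a
      · show D (L (w i)) = D (L (w' i))
        rw [hi, ga']
      · have gi := congrFun h i
        simp only [Xn i hi] at gi
        exact (Prod.ext_iff.1 (Sum.inr.inj gi)).1
  have h3 : H (cpn p z 1) (fun w => w a) = H p (fun ω => ω) := (cpn_marg h0 z 1 a).H (fun ω => ω)
  have h4 : CH (cpn p z 1) (dd L D) (fun w => w a) = 1 * CH p (fun ω => D (L ω)) z := by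
    unfold CH
    rw [← h2, h1, hsum, h3]
    push_cast
    ring
  have h5 : CH (cpn p z 1) (dd L D) (fun w => L (w a)) ≤ 1 * CH p (fun ω => D (L ω)) y := by
    refine (Pool.H54.QF.CH_pi_le m0 (fun w : Fin 2 → Ω => L (w a)) 2 (dd L D)).trans ?_
    have e1 : CH (cpn p z 1) (fun w => dd L D w a) (fun w => L (w a)) = 0 :=
      CH_eq_zero m0 fun w w' _ _ h => congrArg D h
    have e2 : ∀ i, i ≠ a → CH (cpn p z 1) (fun w => dd L D w i) (fun w => L (w a)) ≤
        CH p (fun ω => D (L ω)) y := by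
      intro i _
      rw [← (cpn_marg h0 z 1 i).CH (fun ω => D (L ω)) y]
      refine CH_mono_cond m0 fun w w' hw hw' h => ?_
      obtain ⟨a1, a2⟩ := hpos w hw
      obtain ⟨b1, b2⟩ := hpos w' hw'
      have k1 : y (w i) = y (w a) := hC.yz _ _ (a1 i) (a1 a) ((a2 i).trans (a2 a).symm)
      have k2 : y (w' i) = y (w' a) := hC.yz _ _ (b1 i) (b1 a) ((b2 i).trans (b2 a).symm)
      show y (w i) = y (w' i)
      rw [k1, k2]
      exact hC.yL _ _ (a1 a) (b1 a) h
    rw [← Finset.add_sum_erase _ _ (Finset.mem_univ a), e1, zero_add]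
    refine (Finset.sum_le_sum fun i hi => e2 i (Finset.ne_of_mem_erase hi)).trans (le_of_eq ?_)
    rw [Finset.sum_const, Finset.card_erase_of_mem (Finset.mem_univ a), Finset.card_univ,
      Fintype.card_fin, nsmul_eq_mul]
    norm_num
  have h6 := hC.free
  have h7 := e_nn hC
  linarith

/-- **The time of a sample given its line and the directions.** -/
theorem full_star (hC : CloH p L z y t D X x V P N M K e η c) (a : Fin 2) :
    Real.log (2 * M + 1) - 3 * e ≤
      CH (cpn p z 1) (fun w => t (w a)) (fun w => (dd L D w, L (w a))) := by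
  have h0 := hC.law.nonneg
  have m0 := cpn_nonneg h0 z 1
  have h1 := mi_le m0 (fun w : Fin 2 → Ω => t (w a)) (dd L D) (fun w => L (w a)) (fun w => w a)
    (fun w w' _ _ h => congrArg t h) (fun w w' _ _ h => congrArg L h)
  have h2 := D_one hC a
  have h3 : CH (cpn p z 1) (fun w => t (w a)) (fun w => L (w a)) = CH p t L :=
    (cpn_marg h0 z 1 a).CH t L
  have h4 := hC.full
  have h5 := e_nn hC
  linarith

end star

end Pool.CL2
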