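import Pool.Agent.H95.CL2.Str

/-!
# The coordinates of the star
-/

set_option autoImplicit false

namespace Pool.CL2

open Finset Real MvPolynomial
open Pool.Agent.H49.Ent Pool.Agent.H32.Dense Pool.STK
open Pool.BFL (Pb)
open Pool.K2S (cpn)
open Pool.CLU (cpn_law cpn_pos cpn_marg cpn_nonneg)
open Pool.STB (Pb_mono Pb_or Pb_le2)

theorem cv_le {M : ℕ} {q : V2} (hq : Bx 1 q) (i : Fin 2) : |cv M q i| ≤ (M : ℤ) := by
  have h1 := abs_le.1 (hq i)
  have hM : (0 : ℝ) ≤ M := Nat.cast_nonneg M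
  unfold cv
  rw [abs_le]
  constructor
  · refine Int.le_floor.2 ?_
    push_cast
    nlinarith [h1.1]
  · have h2 : (⌊(M : ℝ) * q i⌋ : ℝ) ≤ (M : ℝ) := (Int.floor_le _).trans (by nlinarith [h1.2])
    exact_mod_cast h2

theorem cv_near (M : ℕ) (q : V2) (i : Fin 2) : |(cv M q i : ℝ) - M * q i| ≤ 1 := by
  unfold cv
  have h1 := Int.floor_le ((M : ℝ) * q i)
  have h2 := Int.lt_floor_add_one ((M : ℝ) * q i)
  exact abs_le.2 ⟨by linarith, by linarith⟩

theorem pt_near {M : ℕ} (hM : 1 ≤ M) (q : V2) (i : Fin 2) : |pt M (cv M q) i - q i| ≤ 1 / M := by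
  have hM0 : (0 : ℝ) < M := by exact_mod_cast hM
  have h := cv_near M q i
  have e : pt M (cv M q) i - q i = ((cv M q i : ℝ) - M * q i) / M := by
    unfold pt
    field_simp
  rw [e, abs_div, abs_of_pos hM0]
  exact div_le_div_of_nonneg_right h hM0.le

section

variable {Ω Λ Z Y 𝒟 : Type} [Fintype Ω] {p : Ω → ℝ} {L : Ω → Λ} {z : Ω → Z} {y : Ω → Y} {t : Ω → ℤ}
  {D : Λ → 𝒟} {X : 𝒟 → V2} {x : Z → V2} {V : Z → ℝ} {P : Λ → Polynomial ℝ} {N M : ℕ}
  {K e η c : ℝ}

/-- **The base points of the lines.** -/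
theorem base (hC : CloH p L z y t D X x V P N M K e η c) :
    ∃ x0 : Λ → V2, ∀ ω, 0 < p ω →
      Bx (K / M) (x (z ω) - x0 (L ω) - ((t ω : ℝ) / M) • X (D (L ω))) := by
  classical
  refine ⟨fun l => if h : ∃ ω, 0 < p ω ∧ L ω = l then
    x (z h.choose) - ((t h.choose : ℝ) / M) • X (D l) else 0, fun ω hω => ?_⟩
  have h : ∃ ω', 0 < p ω' ∧ L ω' = L ω := ⟨ω, hω, rfl⟩
  simp only [dif_pos h]
  obtain ⟨h1, h2⟩ := h.choose_spec
  have h3 := hC.pos h.choose ω h1 hω h2
  rw [h2] at h3
  intro i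
  have h4 := h3 i
  refine le_trans (le_of_eq ?_) h4
  congr 1
  simp only [Pi.sub_apply, Pi.smul_apply, smul_eq_mul]
  ring

/-- The coordinates along a line. -/
theorem line_cr (hC : CloH p L z y t D X x V P N M K e η c) {x0 : Λ → V2}
    (h0 : ∀ ω, 0 < p ω → Bx (K / M) (x (z ω) - x0 (L ω) - ((t ω : ℝ) / M) • X (D (L ω))))
    (hη : 0 < η) {d : Fin 2 → 𝒟} (hd : Gp X η d) {ω : Ω} (hω : 0 < p ω) {a : Fin 2}
    (ha : d a = D (L ω)) (b : Fin 2) :
    |cr X η d (x (z ω)) b - cr X η d (x0 (L ω)) b -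
      (if b = a then η ^ 3 / 6 * ((t ω : ℝ) / M) else 0)| ≤ K / M := by
  have h1 := cr_bx (η := η) (d := d) hη hC.X1 (h0 ω hω) b
  rw [cr_sub, cr_sub, cr_smul, ← ha, cr_dir hη hd a] at h1
  simp only [Pi.sub_apply, Pi.smul_apply, smul_eq_mul] at h1
  refine le_trans (le_of_eq ?_) h1
  congr 1
  by_cases hb : b = a
  · rw [hb, if_pos rfl, Pi.single_eq_same]
    ring
  · rw [if_neg hb, Pi.single_eq_of_ne hb]
    ring

/-- **The value along a line in the direction `a`.** -/
noncomputable def bp (X : 𝒟 → V2) (η : ℝ) (P : Λ → Polynomial ℝ) (x0 : Λ → V2) (a : Fin 2)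
    (d : Fin 2 → 𝒟) (l : Λ) : Polynomial ℝ :=
  (P l).comp (Polynomial.C (6 / η ^ 3) * (Polynomial.X - Polynomial.C (cr X η d (x0 l) a)))

theorem bp_eval (X : 𝒟 → V2) (η : ℝ) (P : Λ → Polynomial ℝ) (x0 : Λ → V2) (a : Fin 2)
    (d : Fin 2 → 𝒟) (l : Λ) (s : ℝ) :
    (bp X η P x0 a d l).eval s = (P l).eval (6 / η ^ 3 * (s - cr X η d (x0 l) a)) := by
  unfold bp
  rw [Polynomial.eval_comp, Polynomial.eval_mul, Polynomial.eval_C, Polynomial.eval_sub,
    Polynomial.eval_X, Polynomial.eval_C]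

theorem bp_deg (hC : CloH p L z y t D X x V P N M K e η c) (x0 : Λ → V2) (a : Fin 2)
    (d : Fin 2 → 𝒟) (l : Λ) : (bp X η P x0 a d l).natDegree ≤ N := by
  unfold bp
  refine Polynomial.natDegree_comp_le.trans ?_
  have h1 : (Polynomial.C (6 / η ^ 3) * (Polynomial.X - Polynomial.C (cr X η d (x0 l) a))).natDegree
      ≤ 1 := (Polynomial.natDegree_C_mul_le _ _).trans (Polynomial.natDegree_X_sub_C_le _)
  calc (P l).natDegree * _ ≤ N * 1 := Nat.mul_le_mul (hC.Pd l) h1
    _ = N := mul_one N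

/-- **The value at a point near a sample.** -/
theorem bp_close (hC : CloH p L z y t D X x V P N M K e η c) (hM : 1 ≤ M) {x0 : Λ → V2}
    (h0 : ∀ ω, 0 < p ω → Bx (K / M) (x (z ω) - x0 (L ω) - ((t ω : ℝ) / M) • X (D (L ω))))
    (hη : 0 < η) {C₁ : ℝ} (hC₁ : ∀ (P : Polynomial ℝ) (U : ℝ), P.natDegree ≤ N →
      (∀ s : ℝ, |s| ≤ 2 → |P.eval s| ≤ U) → ∀ s s' : ℝ, |s| ≤ 2 → |s'| ≤ 2 →
      |P.eval s - P.eval s'| ≤ C₁ * U * |s - s'|) (hC0 : 0 ≤ C₁) {d : Fin 2 → 𝒟} (hd : Gp X η d)
    {ω : Ω} (hω : 0 < p ω) {a : Fin 2} (ha : d a = D (L ω)) {s τ : ℝ} (hK : 0 ≤ K)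
    (hs : |s - cr X η d (x (z ω)) a| ≤ τ) (hsm : 6 / η ^ 3 * (τ + K / M) ≤ 1) :
    |(bp X η P x0 a d (L ω)).eval s - (P (L ω)).eval ((t ω : ℝ) / M)| ≤
      C₁ * K * (6 / η ^ 3 * (τ + K / M)) := by
  have hM0 : (0 : ℝ) < M := by exact_mod_cast hM
  have h3 : (0 : ℝ) < η ^ 3 := by positivity
  have h1 := line_cr hC h0 hη hd hω ha a
  rw [if_pos rfl] at h1
  have ht : |(t ω : ℝ) / M| ≤ 1 := by
    rw [abs_div, abs_of_pos hM0]
    refine (div_le_one hM0).2 ?_
    exact_mod_cast hC.tM ω hω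
  have h2 : |6 / η ^ 3 * (s - cr X η d (x0 (L ω)) a) - (t ω : ℝ) / M| ≤
      6 / η ^ 3 * (τ + K / M) := by
    have e : 6 / η ^ 3 * (s - cr X η d (x0 (L ω)) a) - (t ω : ℝ) / M = 6 / η ^ 3 *
        ((s - cr X η d (x (z ω)) a) + (cr X η d (x (z ω)) a - cr X η d (x0 (L ω)) a -
          η ^ 3 / 6 * ((t ω : ℝ) / M))) := by
      field_simp
      ring
    rw [e, abs_mul, abs_of_pos (by positivity)]
    refine mul_le_mul_of_nonneg_left ?_ (by positivity)
    exact (abs_add_le _ _).trans (add_le_add hs h1)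
  rw [bp_eval]
  refine (hC₁ (P (L ω)) K (hC.Pd _) (hC.PK _) _ _ ?_ (by linarith)).trans ?_
  · have := abs_sub_abs_le_abs_sub (6 / η ^ 3 * (s - cr X η d (x0 (L ω)) a)) ((t ω : ℝ) / M)
    linarith
  · exact mul_le_mul_of_nonneg_left h2 (by positivity)

/-- The integer coordinates of the star. -/
noncomputable def ro (M : ℕ) (L : Ω → Λ) (z : Ω → Z) (D : Λ → 𝒟) (X : 𝒟 → V2) (x : Z → V2) (η : ℝ)
    (w : Fin 2 → Ω) : Fin 2 → ℤ := cv M (cr X η (dd L D w) (x (z (w 0))))

/-- The record of the star. -/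
def w0 (L : Ω → Λ) (y : Ω → Y) (D : Λ → 𝒟) (w : Fin 2 → Ω) : Y × (Fin 2 → 𝒟) :=
  (y (w 0), dd L D w)

theorem ro_le (hC : CloH p L z y t D X x V P N M K e η c) (hη : 0 < η) (w : Fin 2 → Ω) (i : Fin 2) :
    |ro M L z D X x η w i| ≤ (M : ℤ) := cv_le (cr_bx hη hC.X1 (hC.x1 _)) i

/-- **The own coordinate is full.** -/
theorem c1_star (hC : CloH p L z y t D X x V P N M K e η c) (hM : 1 ≤ M) (hη : 0 < η)
    (hη1 : η ≤ 1) (hK : 0 ≤ K) (hc : 0 ≤ c) (a : Fin 2) :
    Real.log (2 * M + 1) - (3 * e + 4 * (Real.log 2 + Real.log (57 * (K + 1) / η ^ 3)) +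
      3 * c * Real.log (2 * M + 1)) ≤
      CH (cpn p z 1) (fun w => ro M L z D X x η w a)
        (fun w => ((rs (univ.erase a) (ro M L z D X x η w), L (w a)), w0 L y D w)) := by
  classical
  have p0 := hC.law.nonneg
  have m0 := cpn_nonneg p0 z 1
  have hlaw := cpn_law hC.law z 1
  have hpos := cpn_pos p0 z 1
  have hM0 : (0 : ℝ) < M := by exact_mod_cast hM
  have h3 : (0 : ℝ) < η ^ 3 := by positivity
  have h31 : η ^ 3 ≤ 1 := pow_le_one₀ hη.le hη1
  obtain ⟨x0, hx0⟩ := base hC
  have hlog : 0 ≤ Real.log (2 * M + 1) := Real.log_nonneg (by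
    have : (0 : ℝ) ≤ M := hM0.le
    linarith)
  have hKM : (M : ℝ) * (K / M) = K := by field_simp
  -- the time is few given the coordinate and the line
  have hT : CH (cpn p z 1) (fun w => t (w a)) (fun w => (ro M L z D X x η w a,
      ((rs (univ.erase a) (ro M L z D X x η w), L (w a)), w0 L y D w))) ≤
      Real.log 2 + Real.log (57 * (K + 1) / η ^ 3) + 3 * c * Real.log (2 * M + 1) := by
    have hA : (1 : ℝ) ≤ 6 / η ^ 3 * (K + 1) := by
      have : (1 : ℝ) ≤ 6 / η ^ 3 := by rw [le_div_iff₀ h3]; linarith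
      nlinarith
    have h1 := CH_near hlaw (fun w => t (w a)) (fun w => (ro M L z D X x η w a,
      ((rs (univ.erase a) (ro M L z D X x η w), L (w a)), w0 L y D w)))
      (fun v => 6 / η ^ 3 * ((v.1 : ℝ) - M * cr X η v.2.2.2 (x0 v.2.1.2) a))
      (fun w => Gp X η (dd L D w)) hA (M := M) (fun w hw => hC.tM _ ((hpos w hw).1 a)) ?_
    · refine h1.trans ?_
      have h2 := gp_star hC hη hη1
      have h4 := mul_le_mul_of_nonneg_right h2 hlog
      have h5 : Real.log (3 * (6 / η ^ 3 * (K + 1))) ≤ Real.log (57 * (K + 1) / η ^ 3) := by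
        refine Real.log_le_log (by positivity) ?_
        rw [show 3 * (6 / η ^ 3 * (K + 1)) = 18 * (K + 1) / η ^ 3 by ring]
        exact div_le_div_of_nonneg_right (by linarith) h3.le
      linarith
    · intro w hw hg
      obtain ⟨a1, a2⟩ := hpos w hw
      have h2 := line_cr hC hx0 hη hg (a1 a) (a := a) rfl a
      rw [if_pos rfl] at h2
      have hz : z (w a) = z (w 0) := a2 a
      rw [hz] at h2
      have h4 := cv_near M (cr X η (dd L D w) (x (z (w 0)))) a
      show |(t (w a) : ℝ) - 6 / η ^ 3 * (((ro M L z D X x η w a : ℤ) : ℝ) -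
        M * cr X η (dd L D w) (x0 (L (w a))) a)| ≤ _
      have e1 : (t (w a) : ℝ) - 6 / η ^ 3 * (((ro M L z D X x η w a : ℤ) : ℝ) -
        M * cr X η (dd L D w) (x0 (L (w a))) a) = -(6 / η ^ 3 * ((((cv M (cr X η (dd L D w)
          (x (z (w 0)))) a : ℤ) : ℝ) - M * cr X η (dd L D w) (x (z (w 0))) a) +
          M * (cr X η (dd L D w) (x (z (w 0))) a - cr X η (dd L D w) (x0 (L (w a))) a -
            η ^ 3 / 6 * ((t (w a) : ℝ) / M)))) := by
        unfold ro
        field_simp
        ring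
      rw [e1, abs_neg, abs_mul, abs_of_pos (by positivity)]
      refine mul_le_mul_of_nonneg_left ?_ (by positivity)
      refine (abs_add_le _ _).trans ?_
      rw [abs_mul, abs_of_pos hM0]
      have h5 := mul_le_mul_of_nonneg_left h2 hM0.le
      rw [hKM] at h5
      linarith
  -- the other coordinates are few given the line
  have hR : CH (cpn p z 1) (fun w => rs (univ.erase a) (ro M L z D X x η w))
      (fun w => (L (w a), w0 L y D w)) ≤
      3 * (Real.log 2 + Real.log (57 * (K + 1) / η ^ 3)) := by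
    refine (Pool.H54.QF.CH_pi_le m0 _ 2 (fun w => rs (univ.erase a) (ro M L z D X x η w))).trans ?_
    have h1 : ∀ b : Fin 2, CH (cpn p z 1) (fun w => rs (univ.erase a) (ro M L z D X x η w) b)
        (fun w => (L (w a), w0 L y D w)) ≤
        Real.log 2 + Real.log (57 * (K + 1) / η ^ 3) := by
      intro b
      have h2 := CH_near hlaw (fun w => rs (univ.erase a) (ro M L z D X x η w) b)
        (fun w => (L (w a), w0 L y D w))
        (fun v => if b = a then 0 else (M : ℝ) * cr X η v.2.2 (x0 v.1) b)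
        (fun _ => True) (A := K + 1) (by linarith) (M := M) (fun w _ => ?_) ?_
      · refine h2.trans ?_
        have h4 : Pb (cpn p z 1) (fun _ => ¬ True) = 0 := by
          unfold Pb
          refine Finset.sum_eq_zero fun v _ => if_neg fun h => h trivial
        rw [h4, zero_mul, add_zero]
        have h5 : Real.log (3 * (K + 1)) ≤ Real.log (57 * (K + 1) / η ^ 3) := by
          refine Real.log_le_log (by positivity) ?_
          rw [le_div_iff₀ h3]
          nlinarith
        linarith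
      · unfold rs
        split_ifs
        · exact ro_le hC hη w b
        · rw [abs_zero]
          exact Int.natCast_nonneg M
      · intro w hw _
        show |((rs (univ.erase a) (ro M L z D X x η w) b : ℤ) : ℝ) -
          (if b = a then 0 else (M : ℝ) * cr X η (dd L D w) (x0 (L (w a))) b)| ≤ _
        by_cases hb : b = a
        · rw [if_pos hb]
          unfold rs
          rw [if_neg (by rw [hb]; exact Finset.notMem_erase a _), Int.cast_zero, sub_zero, abs_zero]
          linarith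
        · rw [if_neg hb]
          unfold rs
          rw [if_pos (Finset.mem_erase.2 ⟨hb, Finset.mem_univ b⟩)]
          by_cases hg : Gp X η (dd L D w)
          · obtain ⟨a1, a2⟩ := hpos w hw
            have h2 := line_cr hC hx0 hη hg (a1 a) (a := a) rfl b
            rw [if_neg hb, sub_zero] at h2
            have hz : z (w a) = z (w 0) := a2 a
            rw [hz] at h2
            have h4 := cv_near M (cr X η (dd L D w) (x (z (w 0)))) b
            have h5 : |(M : ℝ) * (cr X η (dd L D w) (x (z (w 0))) b -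
                cr X η (dd L D w) (x0 (L (w a))) b)| ≤ K := by
              rw [abs_mul, abs_of_pos hM0]
              have h6 := mul_le_mul_of_nonneg_left h2 hM0.le
              rw [hKM] at h6
              exact h6
            have e1 : ((ro M L z D X x η w b : ℤ) : ℝ) - M * cr X η (dd L D w) (x0 (L (w a))) b =
                (((cv M (cr X η (dd L D w) (x (z (w 0)))) b : ℤ) : ℝ) -
                  M * cr X η (dd L D w) (x (z (w 0))) b) + M * (cr X η (dd L D w) (x (z (w 0))) b -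
                  cr X η (dd L D w) (x0 (L (w a))) b) := by
              unfold ro
              ring
            rw [e1]
            refine (abs_add_le _ _).trans ?_
            linarith
          · have e1 : ro M L z D X x η w b = 0 := by
              unfold ro cv
              rw [cr_bad hg]
              simp
            rw [e1, cr_bad hg]
            simp
            linarith
    refine (Finset.sum_le_sum fun b _ => h1 b).trans ?_
    rw [Finset.sum_const, Finset.card_univ, Fintype.card_fin, nsmul_eq_mul]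
    push_cast
    have hl2 : 0 ≤ Real.log 2 := Real.log_nonneg (by norm_num)
    have hl3 : 0 ≤ Real.log (57 * (K + 1) / η ^ 3) := Real.log_nonneg (by
      rw [le_div_iff₀ h3]
      nlinarith)
    linarith
  -- the time is full given the line
  have hF := full_star hC a
  have e1 : CH (cpn p z 1) (fun w => t (w a)) (fun w => (dd L D w, L (w a))) ≤
      CH (cpn p z 1) (fun w => t (w a)) (fun w => (L (w a), w0 L y D w)) := by
    refine CH_mono_cond m0 fun w w' hw hw' h => ?_
    obtain ⟨a1, a2⟩ := hpos w hw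
    obtain ⟨b1, b2⟩ := hpos w' hw'
    have hL : L (w a) = L (w' a) := (Prod.ext_iff.1 h).2
    have hD : dd L D w = dd L D w' := (Prod.ext_iff.1 h).1
    refine Prod.ext hL (Prod.ext ?_ hD)
    show y (w 0) = y (w' 0)
    rw [hC.yz _ _ (a1 0) (a1 a) (a2 a).symm, hC.yz _ _ (b1 0) (b1 a) (b2 a).symm]
    exact hC.yL _ _ (a1 a) (b1 a) hL
  have e2 := CH_le_add m0 (fun w => t (w a)) (fun w => rs (univ.erase a) (ro M L z D X x η w))
    (fun w => (L (w a), w0 L y D w))
  have e3 := CH_le_add m0 (fun w => t (w a)) (fun w => ro M L z D X x η w a)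
    (fun w => ((rs (univ.erase a) (ro M L z D X x η w), L (w a)), w0 L y D w))
  have e4 : CH (cpn p z 1) (fun w => t (w a)) (fun w => (rs (univ.erase a) (ro M L z D X x η w),
      (L (w a), w0 L y D w))) = CH (cpn p z 1) (fun w => t (w a))
      (fun w => ((rs (univ.erase a) (ro M L z D X x η w), L (w a)), w0 L y D w)) :=
    CH_congr m0 (fun _ _ _ _ h => (Prod.ext_iff.1 h).1) (fun _ _ _ _ h => (Prod.ext_iff.1 h).1)
      (fun _ _ _ _ h => by
        simp only [Prod.mk.injEq] at h ⊢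
        tauto) (fun _ _ _ _ h => by
        simp only [Prod.mk.injEq] at h ⊢
        tauto)
  linarith

/-- **The position is few given the coordinates and the directions.** -/
theorem c2_star (hC : CloH p L z y t D X x V P N M K e η c) (hM : 1 ≤ M) (hη : 0 < η)
    (hη1 : η ≤ 1) (hK : 0 ≤ K) :
    CH (cpn p z 1) (fun w => cv M (x (z (w 0)))) (fun w => (w0 L y D w, ro M L z D X x η w)) ≤
      3 * (Real.log 2 + Real.log (57 * (K + 1) / η ^ 3) + 3 * c * Real.log (2 * M + 1)) := by
  classical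
  have p0 := hC.law.nonneg
  have m0 := cpn_nonneg p0 z 1
  have hlaw := cpn_law hC.law z 1
  have hpos := cpn_pos p0 z 1
  have hM0 : (0 : ℝ) < M := by exact_mod_cast hM
  have h3 : (0 : ℝ) < η ^ 3 := by positivity
  have h31 : η ^ 3 ≤ 1 := pow_le_one₀ hη.le hη1
  have hlog : 0 ≤ Real.log (2 * M + 1) := Real.log_nonneg (by
    have : (0 : ℝ) ≤ M := hM0.le
    linarith)
  refine (Pool.H54.QF.CH_pi_le m0 _ 2 (fun w => cv M (x (z (w 0))))).trans ?_
  have h1 : ∀ b : Fin 2, CH (cpn p z 1) (fun w => cv M (x (z (w 0))) b)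
      (fun w => (w0 L y D w, ro M L z D X x η w)) ≤
      Real.log 2 + Real.log (57 * (K + 1) / η ^ 3) + 3 * c * Real.log (2 * M + 1) := by
    intro b
    have hA : (1 : ℝ) ≤ 19 / η ^ 3 := by rw [le_div_iff₀ h3]; linarith
    have h2 := CH_near hlaw (fun w => cv M (x (z (w 0))) b)
      (fun w => (w0 L y D w, ro M L z D X x η w))
      (fun v => 6 / η ^ 3 * ∑ a, ((v.2 a : ℤ) : ℝ) * X (v.1.2 a) b)
      (fun w => Gp X η (dd L D w)) hA (M := M) (fun w _ => cv_le (hC.x1 _) b) ?_
    · refine h2.trans ?_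
      have h2 := gp_star hC hη hη1
      have h4 := mul_le_mul_of_nonneg_right h2 hlog
      have h5 : Real.log (3 * (19 / η ^ 3)) ≤ Real.log (57 * (K + 1) / η ^ 3) := by
        refine Real.log_le_log (by positivity) ?_
        rw [show 3 * (19 / η ^ 3) = 57 / η ^ 3 by ring]
        exact div_le_div_of_nonneg_right (by linarith) h3.le
      linarith
    · intro w hw hg
      show |((cv M (x (z (w 0))) b : ℤ) : ℝ) - 6 / η ^ 3 *
        ∑ a, ((ro M L z D X x η w a : ℤ) : ℝ) * X (dd L D w a) b| ≤ _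
      have h2 := congrFun (cr_inv hη hg (x (z (w 0)))) b
      rw [Finset.sum_apply] at h2
      simp only [Pi.smul_apply, smul_eq_mul] at h2
      have h4 := cv_near M (x (z (w 0))) b
      have e1 : (M : ℝ) * x (z (w 0)) b = 6 / η ^ 3 * ∑ a, (M * cr X η (dd L D w) (x (z (w 0))) a) *
          X (dd L D w a) b := by
        have e2 : ∑ a, (M * cr X η (dd L D w) (x (z (w 0))) a) * X (dd L D w a) b =
            M * ∑ a, cr X η (dd L D w) (x (z (w 0))) a * X (dd L D w a) b := by
          rw [Finset.mul_sum]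
          exact Finset.sum_congr rfl fun a _ => by ring
        rw [e2, h2]
        field_simp
      have e3 : 6 / η ^ 3 * ∑ a, (M * cr X η (dd L D w) (x (z (w 0))) a) * X (dd L D w a) b -
          6 / η ^ 3 * ∑ a, ((ro M L z D X x η w a : ℤ) : ℝ) * X (dd L D w a) b =
          6 / η ^ 3 * ∑ a, (M * cr X η (dd L D w) (x (z (w 0))) a -
            ((ro M L z D X x η w a : ℤ) : ℝ)) * X (dd L D w a) b := by
        rw [← mul_sub, ← Finset.sum_sub_distrib]
        congr 1
        exact Finset.sum_congr rfl fun a _ => by ring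
      have h5 : |∑ a, (M * cr X η (dd L D w) (x (z (w 0))) a -
            ((ro M L z D X x η w a : ℤ) : ℝ)) * X (dd L D w a) b| ≤ 3 := by
        refine (Finset.abs_sum_le_sum_abs _ _).trans ?_
        refine (Finset.sum_le_card_nsmul _ _ 1 fun a _ => ?_).trans ?_
        · rw [abs_mul]
          have h6 := cv_near M (cr X η (dd L D w) (x (z (w 0)))) a
          rw [abs_sub_comm] at h6
          calc |M * cr X η (dd L D w) (x (z (w 0))) a - ((ro M L z D X x η w a : ℤ) : ℝ)| *
              |X (dd L D w a) b| ≤ 1 * 1 :=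
                mul_le_mul h6 (hC.X1 _ b) (abs_nonneg _) zero_le_one
            _ = 1 := one_mul 1
        · rw [Finset.card_univ, Fintype.card_fin, nsmul_eq_mul]
          norm_num
      have h6 : |6 / η ^ 3 * ∑ a, (M * cr X η (dd L D w) (x (z (w 0))) a -
            ((ro M L z D X x η w a : ℤ) : ℝ)) * X (dd L D w a) b| ≤ 6 / η ^ 3 * 3 := by
        rw [abs_mul, abs_of_pos (by positivity)]
        exact mul_le_mul_of_nonneg_left h5 (by positivity)
      have h7 : (1 : ℝ) ≤ 1 / η ^ 3 := by rw [le_div_iff₀ h3]; linarith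
      rw [← e3, ← e1] at h6
      have h8 : |((cv M (x (z (w 0))) b : ℤ) : ℝ) - 6 / η ^ 3 *
        ∑ a, ((ro M L z D X x η w a : ℤ) : ℝ) * X (dd L D w a) b| ≤ 1 + 6 / η ^ 3 * 3 := by
        obtain ⟨c1, c2⟩ := abs_le.1 h4
        obtain ⟨d1, d2⟩ := abs_le.1 h6
        exact abs_le.2 ⟨by linarith, by linarith⟩
      refine h8.trans ?_
      have : 19 / η ^ 3 = 1 / η ^ 3 + 6 / η ^ 3 * 3 := by ring
      rw [this]
      linarith
  refine (Finset.sum_le_sum fun b _ => h1 b).trans ?_
  rw [Finset.sum_const, Finset.card_univ, Fintype.card_fin, nsmul_eq_mul]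
  push_cast
  have hl2 : 0 ≤ Real.log 2 := Real.log_nonneg (by norm_num)
  have hl3 : 0 ≤ Real.log (57 * (K + 1) / η ^ 3) := Real.log_nonneg (by
    rw [le_div_iff₀ h3]
    nlinarith)
  have hc0 : 0 ≤ 3 * c * Real.log (2 * M + 1) := by
    have h4 := (Pool.MIC.Pb_nonneg m0 _).trans (gp_star hC hη hη1)
    exact mul_nonneg h4 hlog
  linarith

end

end Pool.CL2
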